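import Pool.Agent.Helper49.WR2.Rows

/-!
# Rows of blocks with tails, the letters of the zigzag depending on the row
-/

set_option autoImplicit false

namespace Pool.Helper49.WR

/-- The letter of block `i`, for rows of length `N + m`; row `j` has the zigzag letters
`z j 0, z j 1, z j 2, z j 3` and the tail `tl j 0, …, tl j (m-1)`. -/
def lett3 {Λ : Type} (N m : ℕ) (z tl : ℕ → ℕ → Λ) (i : ℕ) : Λ :=
  if i % (N + m) < N then z (i / (N + m)) (i % (N + m) % 4)
  else tl (i / (N + m)) (i % (N + m) - N)

private theorem rep3 {T G : Type} [Group G] (f : T → G) (x : List T) (k : ℕ) :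
    ((List.replicate k x).flatten.map f).prod = ((x.map f).prod) ^ k := by
  induction k with
  | zero => simp
  | succ k ih =>
    rw [List.replicate_succ, List.flatten_cons, List.map_append, List.prod_append, ih, pow_succ']

/-- the product of the first `k` blocks -/
private def pp3 {Λ G : Type} [Group G] (V : Λ → G) (ℓ : ℕ → Λ) (e : ℕ → ℕ) (k : ℕ) : G :=
  ((List.range k).map fun i => V (ℓ i) ^ e i).prod

private theorem bword_prod3 {T Λ G : Type} [Group G] (f : T → G)
    (X : Λ → List T) (ℓ : ℕ → Λ) (k : ℕ) (e : ℕ → ℕ) :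
    ((bword X ℓ k e).map f).prod = pp3 (fun l => ((X l).map f).prod) ℓ e k := by
  unfold bword pp3
  induction k with
  | zero => simp
  | succ k ih =>
    rw [List.range_succ, List.flatMap_append, List.map_append, List.prod_append, ih, List.map_append,
      List.prod_append]
    congr 1
    rw [List.flatMap_cons, List.flatMap_nil, List.append_nil, rep3]
    simp

private theorem pp_succ3 {Λ G : Type} [Group G] (V : Λ → G) (ℓ : ℕ → Λ) (e : ℕ → ℕ) (k : ℕ) :
    pp3 V ℓ e (k + 1) = pp3 V ℓ e k * V (ℓ k) ^ e k := by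
  unfold pp3
  rw [List.range_succ, List.map_append, List.prod_append]
  simp

private theorem mod3 (L j q : ℕ) (hq : q < L) : (j * L + q) % L = q := by
  rw [Nat.add_comm, Nat.add_mul_mod_self_right, Nat.mod_eq_of_lt hq]

private theorem div3 (L j q : ℕ) (hq : q < L) : (j * L + q) / L = j := by
  rw [Nat.add_comm, Nat.add_mul_div_right _ _ (by omega), Nat.div_eq_of_lt hq, zero_add]

private theorem row3 {Λ G : Type} [Group G] {a b : G} (hab : a * b = b * a) (V : Λ → G) (N m : ℕ)
    (z tl : ℕ → ℕ → Λ) (j : ℕ) (h0 : V (z j 0) = a) (h1 : V (z j 1) = b) (h2 : V (z j 2) = a⁻¹)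
    (h3 : V (z j 3) = b⁻¹) (e : ℕ → ℕ) (q : ℕ) (hq : q ≤ N) :
    pp3 V (lett3 N m z tl) e (j * (N + m) + q) = pp3 V (lett3 N m z tl) e (j * (N + m)) *
      (a ^ (∑ q ∈ Finset.range q, (if q % 4 = 0 then (e (j * (N + m) + q) : ℤ)
        else if q % 4 = 2 then - (e (j * (N + m) + q) : ℤ) else 0)) *
      b ^ (∑ q ∈ Finset.range q, (if q % 4 = 1 then (e (j * (N + m) + q) : ℤ)
        else if q % 4 = 3 then - (e (j * (N + m) + q) : ℤ) else 0))) := by
  have hc : Commute a b := hab
  induction q with
  | zero => simp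
  | succ q ih =>
    have hq' : q < N := hq
    rw [← add_assoc, pp_succ3, ih hq'.le, Finset.sum_range_succ, Finset.sum_range_succ, mul_assoc]
    congr 1
    set s := ∑ q ∈ Finset.range q, (if q % 4 = 0 then (e (j * (N + m) + q) : ℤ)
        else if q % 4 = 2 then - (e (j * (N + m) + q) : ℤ) else 0)
    set t := ∑ q ∈ Finset.range q, (if q % 4 = 1 then (e (j * (N + m) + q) : ℤ)
        else if q % 4 = 3 then - (e (j * (N + m) + q) : ℤ) else 0)
    set k := e (j * (N + m) + q)
    have hl : lett3 N m z tl (j * (N + m) + q) = z j (q % 4) := by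
      unfold lett3
      rw [mod3 (N + m) j q (by omega), if_pos hq', div3 (N + m) j q (by omega)]
    rw [hl]
    have h4 : q % 4 = 0 ∨ q % 4 = 1 ∨ q % 4 = 2 ∨ q % 4 = 3 := by omega
    rcases h4 with h | h | h | h
    · rw [h, h0, if_pos rfl, if_neg (by omega), if_neg (by omega), add_zero, ← zpow_natCast,
        zpow_add, mul_assoc, mul_assoc, (hc.zpow_zpow (k : ℤ) t).eq]
    · rw [h, h1, if_neg (by omega), if_neg (by omega), if_pos rfl, add_zero, ← zpow_natCast,
        zpow_add, mul_assoc]
    · rw [h, h2, if_neg (by omega), if_pos rfl, if_neg (by omega), if_neg (by omega), add_zero,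
        ← zpow_natCast, inv_zpow', zpow_add, mul_assoc, mul_assoc, (hc.zpow_zpow (-(k : ℤ)) t).eq]
    · rw [h, h3, if_neg (by omega), if_neg (by omega), if_neg (by omega), if_pos rfl, add_zero,
        ← zpow_natCast, inv_zpow', zpow_add, mul_assoc]

private theorem tail3 {Λ G : Type} [Group G] (V : Λ → G) (N m : ℕ)
    (z tl : ℕ → ℕ → Λ) (j : ℕ) (e : ℕ → ℕ) (r : ℕ) (hr : r ≤ m) :
    pp3 V (lett3 N m z tl) e (j * (N + m) + N + r) = pp3 V (lett3 N m z tl) e (j * (N + m) + N) *
      ((List.range r).map fun r => V (tl j r) ^ e (j * (N + m) + N + r)).prod := by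
  induction r with
  | zero => simp
  | succ r ih =>
    have hr' : r < m := hr
    rw [← add_assoc, pp_succ3, ih hr'.le, List.range_succ, List.map_append, List.prod_append,
      mul_assoc]
    congr 1
    have hl : lett3 N m z tl (j * (N + m) + N + r) = tl j r := by
      unfold lett3
      rw [add_assoc, mod3 (N + m) j (N + r) (by omega), if_neg (by omega),
        div3 (N + m) j (N + r) (by omega)]
      congr 1
      omega
    rw [hl]
    simp

theorem eval_bword3 {T Λ G : Type} [Group G] (f : T → G) (X : Λ → List T) (N m n : ℕ)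
    (z tl : ℕ → ℕ → Λ) (a b u : ℕ → G) (hab : ∀ j, j < n → a j * b j = b j * a j)
    (h0 : ∀ j, j < n → ((X (z j 0)).map f).prod = a j)
    (h1 : ∀ j, j < n → ((X (z j 1)).map f).prod = b j)
    (h2 : ∀ j, j < n → ((X (z j 2)).map f).prod = (a j)⁻¹)
    (h3 : ∀ j, j < n → ((X (z j 3)).map f).prod = (b j)⁻¹)
    (e : ℕ → ℕ)
    (htl : ∀ j, j < n → ((List.range m).map fun r =>
      ((X (tl j r)).map f).prod ^ e (j * (N + m) + N + r)).prod = u j) :
    ((bword X (lett3 N m z tl) (n * (N + m)) e).map f).prod =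
      ((List.range n).map fun j => a j ^ xs2 N m (fun i => (e i : ℤ)) j *
        b j ^ ys2 N m (fun i => (e i : ℤ)) j * u j).prod := by
  rw [bword_prod3 f X]
  set V : Λ → G := fun l => ((X l).map f).prod with hV
  have key : ∀ k ≤ n, pp3 V (lett3 N m z tl) e (k * (N + m)) =
      ((List.range k).map fun j => a j ^ xs2 N m (fun i => (e i : ℤ)) j *
        b j ^ ys2 N m (fun i => (e i : ℤ)) j * u j).prod := by
    intro k
    induction k with
    | zero => intro _; simp [pp3]
    | succ k ih =>
      intro hk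
      have hk' : k < n := hk
      have e1 : (k + 1) * (N + m) = k * (N + m) + N + m := by ring
      rw [e1, tail3 V N m z tl k e m le_rfl, row3 (hab k hk') V N m z tl k (h0 k hk') (h1 k hk')
        (h2 k hk') (h3 k hk') e N le_rfl, ih hk'.le, List.range_succ, List.map_append,
        List.prod_append]
      simp only [List.map_cons, List.map_nil, List.prod_cons, List.prod_nil, mul_one]
      rw [htl k hk']
      simp only [mul_assoc]
      rfl
  exact key n le_rfl

end Pool.Helper49.WR
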