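import Pool.Agent.Helper49.WR2.Kernel2
import Pool.Agent.Helper49.WR2.Rows3

/-!
# The colour lemma

Let `(a i, b i)`, `i : ι`, be finitely many commuting pairs of nontrivial elements of a
co-context-free group.  There is a finite set `𝒱` of nonzero vectors of `ℤ²` such that every word
`z₁^{d₁} u₁ ⋯ z_R^{d_R} u_R ≠ 1` (`z_j^{d} = a_i^{d.1} b_i^{d.2}` for some `i = i_j`, `u_j` arbitrary
elements) has colours `χ_j ∈ 𝒱` with `z₁^{d₁ + t₁ χ₁} u₁ ⋯ z_R^{d_R + t_R χ_R} u_R ≠ 1` for all
integers `t_j` (first for `|t_j| ≤ B`, then for all by a pigeonhole argument).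
(helper49, helper60)
-/

set_option autoImplicit false

namespace Pool.Helper49.WR

/-- The value `z₁^{d₁} u₁ ⋯ z_R^{d_R} u_R` of a list of triples `(i, d, u)`. -/
def pv {G ι : Type} [Group G] (a b : ι → G) (W : List (ι × D × G)) : G :=
  (W.map fun x => a x.1 ^ x.2.1.1 * b x.1 ^ x.2.1.2 * x.2.2).prod

theorem colour_bounded {G : Type} [Group G] (hG : CoCF G) {ι : Type} [Finite ι] (a b : ι → G)
    (hab : ∀ i, a i * b i = b i * a i) (ha : ∀ i, a i ≠ 1) (hb : ∀ i, b i ≠ 1) :
    ∃ 𝒱 : Finset D, (0 : D) ∉ 𝒱 ∧ ∀ (W : List (ι × D × G)), pv a b W ≠ 1 → ∀ B : ℕ,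
      ∃ χ : ℕ → D, (∀ j, j < W.length → χ j ∈ 𝒱) ∧ ∀ t : ℕ → ℤ, (∀ j, |t j| ≤ B) →
        pv a b (W.mapIdx fun j x => (x.1, x.2.1 + t j • χ j, x.2.2)) ≠ 1 := by
  classical
  have hval : ∀ (i : ι) (l : Fin 4), axisval (a i) (b i) l ≠ 1 := by
    intro i l
    fin_cases l <;> simp [axisval, ha i, hb i]
  obtain ⟨n, f, hf, g, hg⟩ := hG
  choose X0 hX0 using hf
  have hX0' : ∀ x : G, ((X0 x).map f).prod = x := hX0
  set X : (ι × Fin 4) ⊕ Fin n → List (Fin n) :=
    Sum.elim (fun l => X0 (axisval (a l.1) (b l.1) l.2)) (fun t => [t]) with hXdef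
  have hX : ∀ l, ((X (Sum.inl l)).map f).prod = axisval (a l.1) (b l.1) l.2 := fun l => hX0' _
  have hXne : ∀ l, X l ≠ [] := by
    rintro (l | t) hl
    · have := hX l
      rw [hl] at this
      exact hval l.1 l.2 (by simpa using this.symm)
    · simp [hXdef] at hl
  have hmem : ∀ u : List (Fin n), u ∈ g.language ↔ (u.map f).prod ≠ 1 := by
    intro u
    rw [hg]
    rfl
  obtain ⟨C, hPL⟩ := parikh g X hXne
  -- the colours
  let 𝒱 : Finset D := ((Finset.Icc (-(C : ℤ) ^ 2) ((C : ℤ) ^ 2)) ×ˢ
    (Finset.Icc (-(C : ℤ) ^ 2) ((C : ℤ) ^ 2))).erase 0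
  have h𝒱 : ∀ x : D, x ≠ 0 → |x.1| ≤ (C : ℤ) ^ 2 → |x.2| ≤ (C : ℤ) ^ 2 → x ∈ 𝒱 := by
    intro x hx h1 h2
    rw [abs_le] at h1 h2
    simp only [𝒱, Finset.mem_erase, Finset.mem_product, Finset.mem_Icc]
    exact ⟨hx, h1, h2⟩
  have h0𝒱 : (0 : D) ∉ 𝒱 := by simp [𝒱]
  refine ⟨𝒱, h0𝒱, fun W hW1 B => ?_⟩
  -- the list of displacements
  set w : List (D × ℤ) := W.map fun x => (x.2.1, 0) with hwdef
  have hlen : w.length = W.length := by simp [hwdef]
  have hwj : ∀ j (hj : j < W.length), w[j]'(by omega) = (W[j].2.1, 0) := by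
    intro j hj
    simp [hwdef]
  set R' := w.length with hR
  set N := 4 * 2 ^ R' with hN
  obtain ⟨i0⟩ : Nonempty ι := by
    rcases W with _ | ⟨x, W⟩
    · exact absurd (by simp [pv]) hW1
    · exact ⟨x.1⟩
  obtain ⟨t0⟩ : Nonempty (Fin n) := by
    rcases hXa : X (Sum.inl (i0, 0)) with _ | ⟨t, u⟩
    · exact absurd hXa (hXne _)
    · exact ⟨t⟩
  set Wd : ℕ → ι × D × G := fun j => W.getD j (i0, 0, 1) with hWd
  have hWdj : ∀ j (hj : j < W.length), Wd j = W[j] := by
    intro j hj
    simp [hWd, hj]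
  -- the tails
  set τ : ℕ → List (Fin n) := fun j => X0 (Wd j).2.2 with hτ
  set tn : ℕ → ℕ := fun j => (τ j).length with htn
  set tm := (∑ j ∈ Finset.range R', tn j) + 1 with htm
  have hmj : ∀ j, j < R' → tn j ≤ tm := by
    intro j hj
    have : tn j ≤ ∑ j ∈ Finset.range R', tn j :=
      Finset.single_le_sum (f := tn) (fun _ _ => Nat.zero_le _) (Finset.mem_range.mpr hj)
    omega
  set zz : ℕ → ℕ → (ι × Fin 4) ⊕ Fin n := fun j q => Sum.inl ((Wd j).1, if q = 0 then 0
    else if q = 1 then 1 else if q = 2 then 2 else 3) with hzz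
  set tl : ℕ → ℕ → (ι × Fin 4) ⊕ Fin n := fun j r => Sum.inr ((τ j).getD r t0) with htl
  set ℓ := lett3 N tm zz tl with hℓ
  set M := R' * (N + tm) with hM
  obtain ⟨Bd, hBd⟩ := hPL M ℓ
  obtain ⟨D0, hD1, hD0⟩ : ∃ D0 : ℕ, 1 ≤ D0 ∧ ∀ x ∈ w, x.1.1.natAbs ≤ D0 ∧ x.1.2.natAbs ≤ D0 ∧
      x.2.natAbs ≤ D0 := by
    refine ⟨(w.map fun x => x.1.1.natAbs + x.1.2.natAbs + x.2.natAbs).sum + 1, by omega, ?_⟩
    intro x hx
    have : x.1.1.natAbs + x.1.2.natAbs + x.2.natAbs ≤
        (w.map fun x => x.1.1.natAbs + x.1.2.natAbs + x.2.natAbs).sum :=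
      List.single_le_sum (by simp) _ (List.mem_map_of_mem hx)
    omega
  set Nn := M * M * ((C + 1) * (C + 1)) with hNn
  set κ := R' * B * C + D0 + 1 with hκ
  set U := lev Bd Nn C κ with hU
  let e : Vec := Finsupp.onFinset (Finset.range M) (expo2 tm U tn w) (by
    intro i hi
    rw [Finset.mem_range]
    by_contra hc
    exact hi (expo2_zero tm U tn w (not_lt.mp hc)))
  have he : ∀ i, e i = expo2 tm U tn w i := fun i => rfl
  have heM : ∀ i, M ≤ i → e i = 0 := fun i hi => expo2_zero tm U tn w hi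
  -- the word is nontrivial
  have hword : ∀ e' : ℕ → ℕ, (∀ j, j < R' → ∀ r, r < tm →
      e' (j * (N + tm) + N + r) = e (j * (N + tm) + N + r)) →
      ((bword X ℓ M e').map f).prod = pv a b (W.mapIdx fun j x =>
        (x.1, (xs2 N tm (fun i => (e' i : ℤ)) j, ys2 N tm (fun i => (e' i : ℤ)) j), x.2.2)) := by
    intro e' he'
    rw [hM, hℓ, eval_bword3 f X N tm R' zz tl (fun j => a (Wd j).1) (fun j => b (Wd j).1)
      (fun j => (Wd j).2.2) (fun j _ => hab _) (fun j _ => hX _) (fun j _ => hX _)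
      (fun j _ => hX _) (fun j _ => hX _) e']
    · unfold pv
      congr 1
      apply List.ext_getElem
      · simp [hlen]
      · intro j h1 h2
        have hj : j < W.length := by simpa using h2
        simp [hWdj j hj]
    · intro j hj
      have h1 : ((List.range tm).map fun r =>
          ((X (tl j r)).map f).prod ^ e' (j * (N + tm) + N + r)) =
          (List.range tm).map fun r => f ((τ j).getD r t0) ^ (if r < (τ j).length then 1 else 0) := by
        apply List.map_congr_left
        intro r hr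
        rw [List.mem_range] at hr
        have hNw : N = 4 * 2 ^ w.length := rfl
        have hNj : 4 * 2 ^ (w.length - 1 - j) ≤ 4 * 2 ^ w.length :=
          Nat.mul_le_mul_left 4 (Nat.pow_le_pow_right (by norm_num) (by omega))
        have h2 : N + r - 4 * 2 ^ w.length = r := by rw [← hNw]; omega
        have h4 : e (j * (N + tm) + (N + r)) = if r < tn j then 1 else 0 := by
          have := expo2_val tm U tn w j hj (N + r) (by rw [← hNw]; omega)
          rw [if_neg (by rw [not_lt]; rw [← hNw] at hNj; omega), if_neg (by rw [← hNw]; omega),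
            h2] at this
          exact this
        rw [he' j hj r hr, add_assoc, h4]
        simp [hXdef, tl, tn]
      rw [h1, tail_eval f t0 (τ j) tm (hmj j hj)]
      exact hX0' _
  have hexy : ∀ j (hj : j < W.length), W[j].2.1 =
      (xs2 N tm (fun i => ((e i : ℕ) : ℤ)) j, ys2 N tm (fun i => ((e i : ℕ) : ℤ)) j) := by
    intro j hj
    have h2 : (unword2 N tm w fun i => ((e i : ℕ) : ℤ)) = w := unword2_expo2 tm U tn w
    have h3 := List.getElem_of_eq h2.symm (i := j) (by omega)
    rw [hwj j hj] at h3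
    simp only [unword2, List.getElem_mapIdx] at h3
    exact congrArg Prod.fst h3
  have hin : bword X ℓ M e ∈ g.language := by
    rw [hmem, hword e (fun _ _ _ _ => rfl)]
    have h2 : (W.mapIdx fun j x => (x.1, (xs2 N tm (fun i => (e i : ℤ)) j,
        ys2 N tm (fun i => (e i : ℤ)) j), x.2.2)) = W := by
      apply List.ext_getElem
      · simp
      · intro j h3 h4
        rw [List.getElem_mapIdx, ← hexy j h4]
    rw [h2]
    exact hW1
  obtain ⟨b', P, k, hb', hP, hNC, hek, hk'⟩ := hBd e heM hin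
  have hPcard : P.card ≤ Nn := card_links M C P hP
  -- local changes
  have hlocal : ∀ j, j < R' → ∃ (q : ℕ) (z : Link → ℤ), q + 1 < N ∧
      (∀ p, z p ≠ 0 → p ∈ P ∧ R' * B * C ≤ k p) ∧ (∀ p, |z p| ≤ C) ∧
      (∀ m, m ≠ j * (N + tm) + q → m ≠ j * (N + tm) + q + 1 →
        ∑ p ∈ P, z p * (Link.vec p m : ℤ) = 0) ∧
      ¬ (∑ p ∈ P, z p * (Link.vec p (j * (N + tm) + q) : ℤ) = 0 ∧
        ∑ p ∈ P, z p * (Link.vec p (j * (N + tm) + q + 1) : ℤ) = 0) ∧
      |∑ p ∈ P, z p * (Link.vec p (j * (N + tm) + q) : ℤ)| ≤ (C : ℤ) ^ 2 ∧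
      |∑ p ∈ P, z p * (Link.vec p (j * (N + tm) + q + 1) : ℤ)| ≤ (C : ℤ) ^ 2 := by
    intro j hj
    have hnN : 4 * 2 ^ (R' - 1 - j) ≤ N := by
      rw [hN]
      exact Nat.mul_le_mul_left _ (Nat.pow_le_pow_right (by norm_num) (by omega))
    have hn2 : 2 ≤ 4 * 2 ^ (R' - 1 - j) := by
      have : 1 ≤ 2 ^ (R' - 1 - j) := Nat.one_le_two_pow
      omega
    obtain ⟨i, hi1, hi2, z, hz1, hz2, hz3, hz4, hz5, hz6⟩ := local_change C
      (R' * B * C) P k hNC (fun p hp => ⟨(hP p hp).1, (hP p hp).2.2⟩)
      (j * (N + tm)) (4 * 2 ^ (R' - 1 - j)) hn2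
      ((Finset.range (R' * (N + tm))).filter fun i => j < i / (N + tm) ∧
        i % (N + tm) < 4 * 2 ^ (R' - 1 - i / (N + tm)))
      (card_high2 R' (N + tm) j (by omega) hj)
      (by
        intro o ho
        rw [Finset.mem_filter] at ho
        intro hc
        have h1 : o / (N + tm) < j + 1 := by
          rw [Nat.div_lt_iff_lt_mul (by omega)]
          calc o < j * (N + tm) + 4 * 2 ^ (R' - 1 - j) := hc.2
            _ ≤ j * (N + tm) + (N + tm) := by omega
            _ = (j + 1) * (N + tm) := by ring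
        omega)
      (by
        intro i hi1 hi2
        have hdiv : i / (N + tm) = j := by
          apply Nat.div_eq_of_lt_le
          · exact hi1
          · calc i < j * (N + tm) + 4 * 2 ^ (R' - 1 - j) := hi2
              _ ≤ j * (N + tm) + (N + tm) := by omega
              _ = (j + 1) * (N + tm) := by ring
        have hmod : i % (N + tm) < 4 * 2 ^ (R' - 1 - i / (N + tm)) := by
          have := Nat.div_add_mod i (N + tm)
          rw [hdiv] at this ⊢
          have h3 : (N + tm) * j = j * (N + tm) := by ring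
          omega
        have hei : U j ≤ e i := by
          have := (expo2_high tm U tn w D0 hD0 (i := i) (by rw [← hR, ← hN, hdiv]; exact hj) hmod).1
          rw [← hR, ← hN, hdiv] at this
          exact this
        have hbig := exists_big C Bd (thr Bd Nn C κ j) b' P k hb' (fun p hp => (hP p hp).2.2) i
          (by
            rw [← hek]
            have h1 := lev_ge Bd Nn C κ j
            have h2 : P.card * (C * thr Bd Nn C κ j) ≤ Nn * (C * thr Bd Nn C κ j) :=
              Nat.mul_le_mul_right _ hPcard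
            rw [← hU] at h1
            omega)
        obtain ⟨p, hp, hkp, hvp⟩ := hbig
        refine ⟨p, hp, ?_, hvp, ?_⟩
        · have := thr_ge Bd Nn C κ j
          omega
        · intro m hm
          have hem : thr Bd Nn C κ j ≤ e m := by
            rw [hek]
            exact ends_big _ b' P k hp hkp hm
          have hmM : m < M := by
            rcases vec_ends hm with h1 | h1
            · have := hP p hp
              omega
            · have := hP p hp
              omega
          have hthr := thr_ge Bd Nn C κ j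
          by_cases hlow : (m / (N + tm) < R' ∧ m % (N + tm) < 4 * 2 ^ (R' - 1 - m / (N + tm)))
          · have hup := (expo2_high tm U tn w D0 hD0 (i := m) hlow.1 hlow.2).2
            rw [← hR, ← hN] at hup
            rw [he] at hem
            rcases lt_trichotomy (m / (N + tm)) j with h1 | h1 | h1
            · exfalso
              have := lev_lt_thr Bd Nn C κ h1
              rw [← hU] at this
              omega
            · left
              have hdm := Nat.div_add_mod m (N + tm)
              rw [h1] at hdm hlow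
              have h3 : (N + tm) * j = j * (N + tm) := by ring
              omega
            · right
              rw [Finset.mem_filter, Finset.mem_range]
              exact ⟨hmM, h1, hlow.2⟩
          · exfalso
            have := expo2_low tm U tn w (i := m) hlow
            rw [he] at hem
            omega)
    obtain ⟨q, rfl⟩ := Nat.exists_eq_add_of_le hi1
    exact ⟨q, z, by omega, hz1, hz2, hz3, hz4, hz5, hz6⟩
  choose! q z hq hz1 hz2 hz3 hz4 hz5 hz6 using hlocal
  set Δ : ℕ → ℕ → ℤ := fun j m => ∑ p ∈ P, z j p * (Link.vec p m : ℤ) with hΔ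
  have hrow : ∀ j, j < R' → ((xs2 N tm (Δ j) j, ys2 N tm (Δ j) j) : D) ≠ 0 ∧
      |xs2 N tm (Δ j) j| ≤ (C : ℤ) ^ 2 ∧ |ys2 N tm (Δ j) j| ≤ (C : ℤ) ^ 2 ∧
      ∀ j', j' ≠ j → xs2 N tm (Δ j) j' = 0 ∧ ys2 N tm (Δ j) j' = 0 := by
    intro j hj
    exact row_colour2 N tm j (q j) (hq j hj) (Δ j) _ (hz3 j hj) (hz4 j hj) (hz5 j hj) (hz6 j hj)
  let χ : ℕ → D := fun j => (xs2 N tm (Δ j) j, ys2 N tm (Δ j) j)
  refine ⟨χ, fun j hj => ?_, fun t ht => ?_⟩
  · obtain ⟨h1, h2, h3, -⟩ := hrow j (by omega)
    exact h𝒱 _ h1 h2 h3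
  -- the new multiplicities
  set k' : Link → ℕ := fun p => ((k p : ℤ) + ∑ j ∈ Finset.range R', t j * z j p).toNat with hk'def
  have hk'eq : ∀ p, (k' p : ℤ) = (k p : ℤ) + ∑ j ∈ Finset.range R', t j * z j p := by
    intro p
    rw [hk'def]
    apply Int.toNat_of_nonneg
    by_cases hp : ∀ j ∈ Finset.range R', z j p = 0
    · rw [Finset.sum_eq_zero fun j hj => by rw [hp j hj, mul_zero]]
      positivity
    · push Not at hp
      obtain ⟨j₀, hj₀, hne⟩ := hp
      have h1 := (hz1 j₀ (Finset.mem_range.mp hj₀) p hne).2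
      have h2 : |∑ j ∈ Finset.range R', t j * z j p| ≤ R' * (B * C) := by
        calc |∑ j ∈ Finset.range R', t j * z j p|
            ≤ ∑ j ∈ Finset.range R', |t j * z j p| := Finset.abs_sum_le_sum_abs _ _
          _ ≤ ∑ _j ∈ Finset.range R', (B : ℤ) * C := by
              apply Finset.sum_le_sum
              intro j hj
              rw [abs_mul]
              exact mul_le_mul (ht j) (hz2 j (Finset.mem_range.mp hj) p) (abs_nonneg _)
                (by positivity)
          _ = R' * (B * C) := by simp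
      have h3 : ((R' * B * C : ℕ) : ℤ) ≤ k p := by exact_mod_cast h1
      have h4 : ((R' * B * C : ℕ) : ℤ) = R' * (B * C) := by
        push_cast
        ring
      rw [abs_le] at h2
      linarith [h2.1]
  have hlin : ∀ i, ((lin b' P k' i : ℕ) : ℤ) =
      ((e i : ℕ) : ℤ) + ∑ j ∈ Finset.range R', t j * Δ j i := by
    intro i
    rw [hek]
    simp only [lin, Finsupp.add_apply, Finsupp.finsetSum_apply, Finsupp.smul_apply, smul_eq_mul]
    push_cast
    simp only [hΔ, hk'eq, add_mul, Finset.sum_add_distrib, Finset.mul_sum]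
    rw [add_assoc, add_right_inj, add_right_inj]
    rw [Finset.sum_comm]
    apply Finset.sum_congr rfl
    intro p _
    rw [Finset.sum_mul]
    apply Finset.sum_congr rfl
    intro j _
    ring
  have hnew : (W.mapIdx fun j x => (x.1, (xs2 N tm (fun i => ((lin b' P k' i : ℕ) : ℤ)) j,
      ys2 N tm (fun i => ((lin b' P k' i : ℕ) : ℤ)) j), x.2.2)) =
      W.mapIdx fun j x => (x.1, x.2.1 + t j • χ j, x.2.2) := by
    apply List.ext_getElem
    · simp
    · intro j h3 h4
      have hjW : j < W.length := by simpa using h3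
      have hj : j < R' := by omega
      rw [List.getElem_mapIdx, List.getElem_mapIdx, hexy j hjW]
      have hfun : (fun i => ((lin b' P k' i : ℕ) : ℤ)) =
          fun i => ((e i : ℕ) : ℤ) + (fun i => ∑ j ∈ Finset.range R', t j * Δ j i) i :=
        funext hlin
      have hx : ∑ r ∈ Finset.range R', t r * xs2 N tm (Δ r) j = t j * xs2 N tm (Δ j) j := by
        apply Finset.sum_eq_single_of_mem j (Finset.mem_range.mpr hj)
        intro r hr hrj
        rw [((hrow r (Finset.mem_range.mp hr)).2.2.2 j (Ne.symm hrj)).1, mul_zero]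
      have hy : ∑ r ∈ Finset.range R', t r * ys2 N tm (Δ r) j = t j * ys2 N tm (Δ j) j := by
        apply Finset.sum_eq_single_of_mem j (Finset.mem_range.mpr hj)
        intro r hr hrj
        rw [((hrow r (Finset.mem_range.mp hr)).2.2.2 j (Ne.symm hrj)).2, mul_zero]
      have hX1 : xs2 N tm (fun i => ((lin b' P k' i : ℕ) : ℤ)) j =
          xs2 N tm (fun i => ((e i : ℕ) : ℤ)) j + t j * xs2 N tm (Δ j) j := by
        rw [hfun, xs2_add, xs2_sum, hx]
      have hY1 : ys2 N tm (fun i => ((lin b' P k' i : ℕ) : ℤ)) j =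
          ys2 N tm (fun i => ((e i : ℕ) : ℤ)) j + t j * ys2 N tm (Δ j) j := by
        rw [hfun, ys2_add, ys2_sum, hy]
      rw [hX1, hY1]
      simp [χ]
  have htail : ∀ j, j < R' → ∀ r, r < tm →
      lin b' P k' (j * (N + tm) + N + r) = e (j * (N + tm) + N + r) := by
    intro j hj r hr
    have h1 := hlin (j * (N + tm) + N + r)
    have h2 : ∑ j' ∈ Finset.range R', t j' * Δ j' (j * (N + tm) + N + r) = 0 := by
      apply Finset.sum_eq_zero
      intro j' hj'
      have hj2 := hq j' (Finset.mem_range.mp hj')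
      have h3 : Δ j' (j * (N + tm) + N + r) = 0 := by
        apply hz3 j' (Finset.mem_range.mp hj')
        · intro h
          have := (row_unique (L := N + tm) (j' := j) (k := N + r) (j := j') (l := q j') (by omega)
            (by omega) (by omega)).2
          omega
        · intro h
          have := (row_unique (L := N + tm) (j' := j) (k := N + r) (j := j') (l := q j' + 1)
            (by omega) (by omega) (by omega)).2
          omega
      rw [h3, mul_zero]
    rw [h2, add_zero] at h1
    exact_mod_cast h1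
  have hfin := hk' k'
  rw [hmem, hword _ htail, hnew] at hfin
  exact hfin

end Pool.Helper49.WR
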