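import Pool.Agent.Helper49.WR2.ColourLemma

/-!
# The colour intersection theorem

`colour_theorem`: let `(a i, b i)`, `i : ι`, be finitely many commuting pairs of nontrivial elements
of a co-context-free group `G`.  There is a finite set `𝒱` of nonzero vectors of `ℤ²` such that for
every `f ≠ 1` there is a colouring `χ : G → ι → 𝒱` for which `f` does not lie in the subgroup
generated by the elements `x (a_i^{v.1} b_i^{v.2}) x⁻¹`, `v = χ x i`, `x ∈ G`, `i ∈ ι`; more
generally this holds for all members of a sequence `f 0, f 1, …` of nontrivial elements with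
`f (j+1) ∈ ⟨f j⟩` with the same colouring.
(helper60, helper49)
-/

set_option autoImplicit false

namespace Pool.Helper49.WR

section
variable {G ι : Type} [Group G]

/-- The values of a list of triples whose moves are changed by multiples of the colours. -/
inductive Mv (a b : ι → G) : List (ι × D × G) → List D → G → Prop
  | nil : Mv a b [] [] 1
  | cons {i : ι} {d : D} {u : G} {χ : D} {W : List (ι × D × G)} {cs : List D} {v : G} (t : ℤ)
      (h : Mv a b W cs v) :
      Mv a b ((i, d, u) :: W) (χ :: cs) (a i ^ (d + t • χ).1 * b i ^ (d + t • χ).2 * u * v)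

theorem pv_cons (a b : ι → G) (i : ι) (d : D) (u : G) (W : List (ι × D × G)) :
    pv a b ((i, d, u) :: W) = a i ^ d.1 * b i ^ d.2 * u * pv a b W := by
  simp [pv]

theorem Mv.zero (a b : ι → G) : ∀ (W : List (ι × D × G)) (cs : List D), cs.length = W.length →
    Mv a b W cs (pv a b W)
  | [], [], _ => by simpa [pv] using Mv.nil
  | (i, d, u) :: W, χ :: cs, h => by
    have h1 := Mv.cons (i := i) (d := d) (u := u) (χ := χ) 0 (Mv.zero a b W cs (by simpa using h))
    rw [pv_cons]
    simpa using h1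

theorem Mv.append {a b : ι → G} {W W' : List (ι × D × G)} {cs cs' : List D} {v v' : G}
    (h : Mv a b W cs v) (h' : Mv a b W' cs' v') : Mv a b (W ++ W') (cs ++ cs') (v * v') := by
  induction h with
  | nil => simpa using h'
  | @cons i d u χ W cs v t h ih =>
    have := Mv.cons (i := i) (d := d) (u := u) (χ := χ) t ih
    simpa [mul_assoc] using this

theorem Mv.explicit {a b : ι → G} {W : List (ι × D × G)} {cs : List D} {v : G}
    (h : Mv a b W cs v) : cs.length = W.length ∧ ∃ t : ℕ → ℤ,
      v = pv a b (W.mapIdx fun j x => (x.1, x.2.1 + t j • cs.getD j 0, x.2.2)) := by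
  induction h with
  | nil => exact ⟨rfl, fun _ => 0, by simp [pv]⟩
  | @cons i d u χ W cs v t h ih =>
    obtain ⟨h1, s, h2⟩ := ih
    refine ⟨by simp [h1], fun j => if j = 0 then t else s (j - 1), ?_⟩
    rw [List.mapIdx_cons, pv_cons, h2]
    simp

end

/-- The colour lemma without a bound for the exponents `t`, in terms of `Mv`. -/
theorem colour_lemma {G : Type} [Group G] (hG : CoCF G) {ι : Type} [Finite ι] (a b : ι → G)
    (hab : ∀ i, a i * b i = b i * a i) (ha : ∀ i, a i ≠ 1) (hb : ∀ i, b i ≠ 1) :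
    ∃ 𝒱 : Finset D, (0 : D) ∉ 𝒱 ∧ ∀ (W : List (ι × D × G)), pv a b W ≠ 1 →
      ∃ cs : List D, cs.length = W.length ∧ (∀ c ∈ cs, c ∈ 𝒱) ∧ ∀ v, Mv a b W cs v → v ≠ 1 := by
  classical
  obtain ⟨𝒱, h0, h⟩ := colour_bounded hG a b hab ha hb
  refine ⟨𝒱, h0, fun W hW => ?_⟩
  choose χ hχ1 hχ2 using h W hW
  -- a colouring which occurs infinitely often
  let F : ℕ → (Fin W.length → {v // v ∈ 𝒱}) := fun B j => ⟨χ B j, hχ1 B j j.2⟩
  obtain ⟨φ, hφ⟩ := Finite.exists_infinite_fiber F
  have hinf : (F ⁻¹' {φ}).Infinite := Set.infinite_coe_iff.1 hφ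
  refine ⟨List.ofFn fun j => (φ j : D), by simp, ?_, ?_⟩
  · intro c hc
    rw [List.mem_ofFn] at hc
    obtain ⟨j, rfl⟩ := hc
    exact (φ j).2
  · intro v hv
    obtain ⟨-, t, ht⟩ := hv.explicit
    obtain ⟨B, hB, hBt⟩ := hinf.exists_gt (∑ j ∈ Finset.range W.length, (t j).natAbs)
    have h1 := hχ2 B (fun j => if j < W.length then t j else 0) (by
      intro j
      by_cases hj : j < W.length
      · simp only [hj, if_true]
        have h2 : (t j).natAbs ≤ ∑ j ∈ Finset.range W.length, (t j).natAbs :=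
          Finset.single_le_sum (f := fun j => (t j).natAbs) (fun _ _ => Nat.zero_le _)
            (Finset.mem_range.2 hj)
        rw [Int.abs_eq_natAbs]
        exact_mod_cast (by omega : (t j).natAbs ≤ B)
      · simp [hj])
    rw [ht]
    convert h1 using 2
    apply List.ext_getElem
    · simp
    · intro j h2 h3
      have hj : j < W.length := by simpa using h2
      have h4 : χ B j = φ ⟨j, hj⟩ := by
        have : F B = φ := hB
        rw [← this]
      simp [hj, h4]

section
variable {G ι : Type} [Group G]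

/-- One round: the word `∏ x z_i^0 x⁻¹` over a list of pairs `(x, i)`. -/
def round (L : List (G × ι)) : List (ι × D × G) :=
  L.flatMap fun p => [(p.2, 0, p.1), (p.2, 0, p.1⁻¹)]

theorem pv_append (a b : ι → G) (W W' : List (ι × D × G)) :
    pv a b (W ++ W') = pv a b W * pv a b W' := by
  simp [pv]

theorem pv_round (a b : ι → G) (L : List (G × ι)) : pv a b (round L) = 1 := by
  induction L with
  | nil => simp [pv, round]
  | cons p L ih =>
    have h : round (p :: L) = (p.2, 0, p.1) :: (p.2, 0, p.1⁻¹) :: round L := by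
      simp [round]
    rw [h, pv_cons, pv_cons, ih]
    simp

theorem round_avail (a b : ι → G) (𝒱 : Finset D) : ∀ (L : List (G × ι)) (cs : List D),
    cs.length = (round L).length → (∀ c ∈ cs, c ∈ 𝒱) → ∀ p ∈ L, ∃ c ∈ 𝒱, ∀ t : ℤ,
      Mv a b (round L) cs (p.1 * (a p.2 ^ (t • c).1 * b p.2 ^ (t • c).2) * p.1⁻¹) := by
  intro L
  induction L with
  | nil => intro cs _ _ p hp; simp at hp
  | cons q L ih =>
    intro cs hlen hcs p hp
    have h : round (q :: L) = (q.2, 0, q.1) :: (q.2, 0, q.1⁻¹) :: round L := by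
      simp [round]
    rw [h] at hlen ⊢
    obtain ⟨c0, cs, rfl⟩ : ∃ c cs', cs = c :: cs' := by
      cases cs with
      | nil => simp at hlen
      | cons c cs => exact ⟨c, cs, rfl⟩
    obtain ⟨c1, cs, rfl⟩ : ∃ c cs', cs = c :: cs' := by
      cases cs with
      | nil => simp at hlen
      | cons c cs => exact ⟨c, cs, rfl⟩
    have hlen' : cs.length = (round L).length := by simpa using hlen
    rcases List.mem_cons.1 hp with rfl | hp
    · refine ⟨c1, hcs c1 (by simp), fun t => ?_⟩
      have h1 := Mv.zero a b (round L) cs hlen'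
      rw [pv_round] at h1
      have h2 := Mv.cons (i := p.2) (d := 0) (u := p.1⁻¹) (χ := c1) t h1
      have h3 := Mv.cons (i := p.2) (d := 0) (u := p.1) (χ := c0) 0 h2
      simpa [mul_assoc] using h3
    · obtain ⟨c, hc, h1⟩ := ih cs hlen' (fun c hc => hcs c (by simp [hc])) p hp
      refine ⟨c, hc, fun t => ?_⟩
      have h2 := Mv.cons (i := q.2) (d := 0) (u := q.1⁻¹) (χ := c1) 0 (h1 t)
      have h3 := Mv.cons (i := q.2) (d := 0) (u := q.1) (χ := c0) 0 h2
      simpa [mul_assoc] using h3

theorem pv_flatten_replicate (a b : ι → G) (L : List (G × ι)) (M : ℕ) :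
    pv a b (List.replicate M (round L)).flatten = 1 := by
  induction M with
  | zero => simp [pv]
  | succ M ih => rw [List.replicate_succ, List.flatten_cons, pv_append, ih, pv_round, mul_one]

theorem rounds_avail [DecidableEq G] (a b : ι → G) (L : List (G × ι)) (cs₀ : List D) :
    ∀ (css : List (List D)) (gs : List G), (∀ cs ∈ css, cs.length = (round L).length) →
      (∀ g ∈ gs, Mv a b (round L) cs₀ g) → gs.length ≤ css.countP (fun cs => decide (cs = cs₀)) →
      Mv a b (List.replicate css.length (round L)).flatten css.flatten gs.prod := by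
  intro css
  induction css with
  | nil =>
    intro gs _ _ h
    have : gs = [] := by
      rw [List.countP_nil] at h
      exact List.length_eq_zero_iff.1 (Nat.le_zero.1 h)
    subst this
    simpa using Mv.nil
  | cons cs css ih =>
    intro gs hlen hgs h
    rw [List.length_cons, List.replicate_succ, List.flatten_cons, List.flatten_cons]
    have hlen' : ∀ cs ∈ css, cs.length = (round L).length := fun cs hcs => hlen cs (by simp [hcs])
    by_cases hcs : cs = cs₀
    · rcases gs with _ | ⟨g, gs⟩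
      · have h1 := (Mv.zero a b (round L) cs (hlen cs (by simp))).append
          (ih [] hlen' (by simp) (by simp))
        rw [pv_round] at h1
        simpa using h1
      · rw [List.prod_cons]
        refine Mv.append ?_ (ih gs hlen' (fun g hg => hgs g (by simp [hg])) ?_)
        · rw [hcs]
          exact hgs g (by simp)
        · rw [List.countP_cons_of_pos (by simpa using hcs)] at h
          simpa using h
    · have h1 := (Mv.zero a b (round L) cs (hlen cs (by simp))).append
        (ih gs hlen' hgs (by rwa [List.countP_cons_of_neg (by simpa using hcs)] at h))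
      rw [pv_round, one_mul] at h1
      exact h1

end

/-- Splitting a list of length `M k` into `M` lists of length `k`. -/
theorem split_lists {α : Type} (k : ℕ) : ∀ (M : ℕ) (l : List α), l.length = M * k →
    ∃ ls : List (List α), ls.length = M ∧ ls.flatten = l ∧ ∀ x ∈ ls, x.length = k := by
  intro M
  induction M with
  | zero =>
    intro l hl
    refine ⟨[], rfl, ?_, by simp⟩
    rw [zero_mul, List.length_eq_zero_iff] at hl
    simp [hl]
  | succ M ih =>
    intro l hl
    obtain ⟨ls, h1, h2, h3⟩ := ih (l.drop k) (by rw [List.length_drop, hl]; ring_nf; omega)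
    refine ⟨l.take k :: ls, by simp [h1], by simp [h2], ?_⟩
    intro x hx
    rcases List.mem_cons.1 hx with rfl | hx
    · rw [List.length_take, hl]
      exact min_eq_left (by nlinarith)
    · exact h3 x hx

private theorem length_eq_sum {α : Type} [DecidableEq α] (S : Finset α) (l : List α)
    (h : ∀ x ∈ l, x ∈ S) :
    l.length = ∑ s ∈ S, l.countP (fun x => decide (x = s)) := by
  induction l with
  | nil => simp
  | cons x l ih =>
    have h1 := ih (fun y hy => h y (by simp [hy]))
    have h2 : ∀ s ∈ S, (x :: l).countP (fun x => decide (x = s)) =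
        l.countP (fun x => decide (x = s)) + if x = s then 1 else 0 := by
      intro s _
      rw [List.countP_cons]
      simp
    rw [Finset.sum_congr rfl h2, Finset.sum_add_distrib, ← h1, Finset.sum_ite_eq,
      if_pos (h x (by simp)), List.length_cons]

/-- The colour intersection theorem for finitely many conjugators. -/
theorem colour_finite {G : Type} [Group G] {ι : Type} (a b : ι → G) (𝒱 : Finset D)
    (h : ∀ (W : List (ι × D × G)), pv a b W ≠ 1 →
      ∃ cs : List D, cs.length = W.length ∧ (∀ c ∈ cs, c ∈ 𝒱) ∧ ∀ v, Mv a b W cs v → v ≠ 1)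
    (L : List (G × ι)) (f : G) (hf : f ≠ 1) :
    ∃ χ : G × ι → D, (∀ p ∈ L, χ p ∈ 𝒱) ∧ ∀ gs : List G,
      (∀ g ∈ gs, ∃ p ∈ L, ∃ t : ℤ,
        g = p.1 * (a p.2 ^ (t • χ p).1 * b p.2 ^ (t • χ p).2) * p.1⁻¹) → gs.prod * f ≠ 1 := by
  classical
  rcases L with _ | ⟨p0, L'⟩
  · refine ⟨fun _ => 0, by simp, fun gs hgs => ?_⟩
    rcases gs with _ | ⟨g, gs⟩
    · simpa using hf
    · obtain ⟨p, hp, -⟩ := hgs g (by simp)
      simp at hp
  set L := p0 :: L' with hL
  set m := (round L).length with hm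
  -- the colour lists of a round
  have hfin : {l : List D | l.length = m ∧ ∀ c ∈ l, c ∈ 𝒱}.Finite := by
    have h1 := (List.finite_length_eq {v // v ∈ 𝒱} m).image (List.map Subtype.val)
    refine h1.subset ?_
    rintro l ⟨h2, h3⟩
    refine ⟨l.attach.map fun x => (⟨x.1, h3 x.1 x.2⟩ : {v // v ∈ 𝒱}), ?_, ?_⟩
    · simpa using h2
    · rw [List.map_map]
      exact List.attach_map_subtype_val l
  set 𝒞 : Finset (List D) := hfin.toFinset with h𝒞
  have hmem𝒞 : ∀ l, l ∈ 𝒞 ↔ l.length = m ∧ ∀ c ∈ l, c ∈ 𝒱 := by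
    intro l
    rw [h𝒞, Set.Finite.mem_toFinset]
    rfl
  -- for every `N` a colour list which is good for products of at most `N` elements
  have key : ∀ N : ℕ, ∃ cs₀ ∈ 𝒞, ∀ gs : List G, gs.length ≤ N →
      (∀ g ∈ gs, Mv a b (round L) cs₀ g) → gs.prod * f ≠ 1 := by
    intro N
    set M := 𝒞.card * N + 1 with hM
    obtain ⟨cs, h1, h2, h3⟩ := h ((List.replicate M (round L)).flatten ++ [(p0.2, 0, f)]) (by
      rw [pv_append, pv_flatten_replicate]
      simpa [pv] using hf)
    have hlen : cs.length = M * m + 1 := by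
      rw [h1, List.length_append, List.length_flatten]
      simp [hm]
    obtain ⟨css, e1, e2, e3⟩ := split_lists m M (cs.take (M * m)) (by
      rw [List.length_take, hlen]
      omega)
    obtain ⟨c, hc⟩ : ∃ c, cs.drop (M * m) = [c] := by
      apply List.length_eq_one_iff.1
      rw [List.length_drop, hlen]
      omega
    have hcs : cs = css.flatten ++ [c] := by
      rw [e2, ← hc, List.take_append_drop]
    have hcss : ∀ x ∈ css, x ∈ 𝒞 := by
      intro x hx
      rw [hmem𝒞]
      refine ⟨e3 x hx, fun y hy => h2 y ?_⟩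
      rw [hcs, List.mem_append]
      left
      exact List.mem_flatten.2 ⟨x, hx, hy⟩
    have hsum := length_eq_sum 𝒞 css hcss
    obtain ⟨cs₀, hc0, hpop⟩ : ∃ cs₀ ∈ 𝒞, N ≤ css.countP (fun x => decide (x = cs₀)) := by
      have hne : 𝒞.Nonempty := by
        rcases css with _ | ⟨x, css⟩
        · simp [hM] at e1
        · exact ⟨x, hcss x (by simp)⟩
      refine Finset.exists_le_of_sum_le hne ?_
      rw [← hsum, e1, Finset.sum_const, smul_eq_mul]
      omega
    refine ⟨cs₀, hc0, fun gs hgs hg => ?_⟩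
    apply h3
    rw [hcs]
    refine Mv.append ?_ ?_
    · have := rounds_avail a b L cs₀ css gs e3 hg (le_trans hgs hpop)
      rwa [e1] at this
    · have := Mv.cons (i := p0.2) (d := 0) (u := f) (χ := c) 0 (Mv.nil (a := a) (b := b))
      simpa using this
  choose C hC1 hC2 using key
  obtain ⟨⟨cs₀, hcs₀⟩, hφ⟩ := Finite.exists_infinite_fiber (fun N => (⟨C N, hC1 N⟩ : {l // l ∈ 𝒞}))
  have hinf := Set.infinite_coe_iff.1 hφ
  have hgood : ∀ gs : List G, (∀ g ∈ gs, Mv a b (round L) cs₀ g) → gs.prod * f ≠ 1 := by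
    intro gs hgs
    obtain ⟨N, hN, hlt⟩ := hinf.exists_gt gs.length
    have hN' : C N = cs₀ := congrArg Subtype.val hN
    exact hC2 N gs hlt.le (by rwa [hN'])
  obtain ⟨hlen₀, hcol₀⟩ := (hmem𝒞 cs₀).1 hcs₀
  have hav := round_avail a b 𝒱 L cs₀ hlen₀ hcol₀
  choose! χ hχ1 hχ2 using hav
  refine ⟨χ, hχ1, fun gs hgs => hgood gs fun g hg => ?_⟩
  obtain ⟨p, hp, t, rfl⟩ := hgs g hg
  exact hχ2 p hp t

/-- The subgroup generated by the conjugates `x z_i^{χ x i} x⁻¹`. -/
def hsub {G ι : Type} [Group G] (a b : ι → G) (χ : G → ι → D) : Subgroup G :=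
  Subgroup.closure {g | ∃ x i, g = x * (a i ^ (χ x i).1 * b i ^ (χ x i).2) * x⁻¹}

/-- The subgroup generated by finitely many of the conjugates. -/
def hfinsub {G ι : Type} [Group G] (a b : ι → G) (χ : G × ι → D) (L : Finset (G × ι)) :
    Subgroup G :=
  Subgroup.closure {g | ∃ p ∈ L, g = p.1 * (a p.2 ^ (χ p).1 * b p.2 ^ (χ p).2) * p.1⁻¹}

theorem exists_list_of_mem {G ι : Type} [Group G] (a b : ι → G) (hab : ∀ i, a i * b i = b i * a i)
    (χ : G × ι → D) (L : Finset (G × ι)) {g : G} (hg : g ∈ hfinsub a b χ L) :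
    ∃ gs : List G, (∀ g ∈ gs, ∃ p ∈ L, ∃ t : ℤ,
        g = p.1 * (a p.2 ^ (t • χ p).1 * b p.2 ^ (t • χ p).2) * p.1⁻¹) ∧ gs.prod = g := by
  unfold hfinsub at hg
  induction hg using Subgroup.closure_induction with
  | mem x hx =>
    obtain ⟨p, hp, rfl⟩ := hx
    refine ⟨[p.1 * (a p.2 ^ (χ p).1 * b p.2 ^ (χ p).2) * p.1⁻¹], ?_, by simp⟩
    intro g hg
    rw [List.mem_singleton] at hg
    exact ⟨p, hp, 1, by rw [hg, one_smul]⟩
  | one => exact ⟨[], by simp, rfl⟩
  | mul x y _ _ hx hy =>
    obtain ⟨gs, h1, h2⟩ := hx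
    obtain ⟨gs', h1', h2'⟩ := hy
    refine ⟨gs ++ gs', ?_, by rw [List.prod_append, h2, h2']⟩
    intro g hg
    rcases List.mem_append.1 hg with hg | hg
    · exact h1 g hg
    · exact h1' g hg
  | inv x _ hx =>
    obtain ⟨gs, h1, h2⟩ := hx
    refine ⟨(gs.map fun x => x⁻¹).reverse, ?_, ?_⟩
    · intro g hg
      rw [List.mem_reverse, List.mem_map] at hg
      obtain ⟨y, hy, rfl⟩ := hg
      obtain ⟨p, hp, t, rfl⟩ := h1 y hy
      refine ⟨p, hp, -t, ?_⟩
      have hc : Commute (a p.2) (b p.2) := hab p.2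
      have h3 := (hc.zpow_zpow (t • χ p).1 (t • χ p).2).eq
      rw [neg_smul, Prod.fst_neg, Prod.snd_neg, zpow_neg, zpow_neg, ← mul_inv_rev, ← h3]
      group
    · rw [← List.prod_inv_reverse, h2]

/-- The colour intersection theorem. -/
theorem colour_theorem {G : Type} [Group G] (hG : CoCF G) {ι : Type} [Finite ι] (a b : ι → G)
    (hab : ∀ i, a i * b i = b i * a i) (ha : ∀ i, a i ≠ 1) (hb : ∀ i, b i ≠ 1) :
    ∃ 𝒱 : Finset D, (0 : D) ∉ 𝒱 ∧ ∀ f : ℕ → G, (∀ j, f j ≠ 1) →
      (∀ j, f (j + 1) ∈ Subgroup.zpowers (f j)) →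
      ∃ χ : G → ι → D, (∀ x i, χ x i ∈ 𝒱) ∧ ∀ j, f j ∉ hsub a b χ := by
  classical
  obtain ⟨𝒱, h0, h⟩ := colour_lemma hG a b hab ha hb
  refine ⟨𝒱, h0, fun f hf hmul => ?_⟩
  have hmul' : ∀ i j, i ≤ j → f j ∈ Subgroup.zpowers (f i) := by
    intro i j hij
    induction j, hij using Nat.le_induction with
    | base => exact Subgroup.mem_zpowers _
    | succ j _ ih =>
      obtain ⟨n, hn⟩ := ih
      obtain ⟨k, hk⟩ := hmul j
      refine ⟨n * k, ?_⟩
      simp only at hn hk ⊢
      rw [zpow_mul, hn, hk]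
  -- the finite version
  have hfinite : ∀ (L : Finset (G × ι)) (J : ℕ), ∃ χ : G × ι → D, (∀ p ∈ L, χ p ∈ 𝒱) ∧
      f J ∉ hfinsub a b χ L := by
    intro L J
    obtain ⟨χ, h1, h2⟩ := colour_finite a b 𝒱 h L.toList (f J) (hf J)
    refine ⟨χ, fun p hp => h1 p (Finset.mem_toList.2 hp), fun hmem => ?_⟩
    obtain ⟨gs, h3, h4⟩ := exists_list_of_mem a b hab χ L (Subgroup.inv_mem _ hmem)
    refine h2 gs ?_ (by rw [h4]; simp)
    intro g hg
    obtain ⟨p, hp, t, h5⟩ := h3 g hg
    exact ⟨p, Finset.mem_toList.2 hp, t, h5⟩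
  by_cases hι : Nonempty ι
  · obtain ⟨i0⟩ := hι
    obtain ⟨v0, hv0⟩ : 𝒱.Nonempty := by
      obtain ⟨χ, h1, -⟩ := hfinite {(1, i0)} 0
      exact ⟨χ (1, i0), h1 _ (by simp)⟩
    let _ : TopologicalSpace {v // v ∈ 𝒱} := ⊥
    have _ : DiscreteTopology {v // v ∈ 𝒱} := ⟨rfl⟩
    let K : Finset (G × ι) × ℕ → Set (G × ι → {v // v ∈ 𝒱}) := fun q =>
      {χ | f q.2 ∉ hfinsub a b (fun p => (χ p : D)) q.1}
    have hdep : ∀ (q : Finset (G × ι) × ℕ) (χ χ' : G × ι → {v // v ∈ 𝒱}),
        (∀ p ∈ q.1, χ p = χ' p) → hfinsub a b (fun p => (χ p : D)) q.1 =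
          hfinsub a b (fun p => (χ' p : D)) q.1 := by
      intro q χ χ' hq
      unfold hfinsub
      congr 1
      ext g
      constructor
      · rintro ⟨p, hp, rfl⟩
        exact ⟨p, hp, by simp only [hq p hp]⟩
      · rintro ⟨p, hp, rfl⟩
        exact ⟨p, hp, by simp only [hq p hp]⟩
    have hclosed : ∀ q, IsClosed (K q) := by
      intro q
      let r : (G × ι → {v // v ∈ 𝒱}) → (q.1 → {v // v ∈ 𝒱}) := fun χ p => χ p
      have hr : Continuous r := continuous_pi fun p => continuous_apply _
      have : K q = r ⁻¹' (r '' (K q)) := by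
        ext χ
        constructor
        · intro hχ
          exact ⟨χ, hχ, rfl⟩
        · rintro ⟨χ', hχ', he⟩
          show f q.2 ∉ hfinsub a b (fun p => (χ p : D)) q.1
          rw [hdep q χ χ' (fun p hp => (congrFun he ⟨p, hp⟩).symm)]
          exact hχ'
      rw [this]
      exact (isClosed_discrete _).preimage hr
    have hne : (⋂ q, K q).Nonempty := by
      apply IsCompact.nonempty_iInter_of_directed_nonempty_isCompact_isClosed K
      · intro q q'
        refine ⟨(q.1 ∪ q'.1, max q.2 q'.2), ?_, ?_⟩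
        · intro χ hχ hmem
          apply hχ
          have h1 : f (max q.2 q'.2) ∈ Subgroup.zpowers (f q.2) := hmul' _ _ (le_max_left _ _)
          have h2 : f q.2 ∈ hfinsub a b (fun p => (χ p : D)) (q.1 ∪ q'.1) := by
            refine Subgroup.closure_mono ?_ hmem
            rintro g ⟨p, hp, rfl⟩
            exact ⟨p, Finset.mem_union_left _ hp, rfl⟩
          obtain ⟨n, hn⟩ := h1
          show f (max q.2 q'.2) ∈ _
          rw [← hn]
          exact Subgroup.zpow_mem _ h2 n
        · intro χ hχ hmem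
          apply hχ
          have h1 : f (max q.2 q'.2) ∈ Subgroup.zpowers (f q'.2) := hmul' _ _ (le_max_right _ _)
          have h2 : f q'.2 ∈ hfinsub a b (fun p => (χ p : D)) (q.1 ∪ q'.1) := by
            refine Subgroup.closure_mono ?_ hmem
            rintro g ⟨p, hp, rfl⟩
            exact ⟨p, Finset.mem_union_right _ hp, rfl⟩
          obtain ⟨n, hn⟩ := h1
          show f (max q.2 q'.2) ∈ _
          rw [← hn]
          exact Subgroup.zpow_mem _ h2 n
      · intro q
        obtain ⟨χ, h1, h2⟩ := hfinite q.1 q.2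
        refine ⟨fun p => if hp : p ∈ q.1 then ⟨χ p, h1 p hp⟩ else ⟨v0, hv0⟩, ?_⟩
        show f q.2 ∉ hfinsub a b _ q.1
        have : hfinsub a b (fun p => (((if hp : p ∈ q.1 then ⟨χ p, h1 p hp⟩ else ⟨v0, hv0⟩ :
            {v // v ∈ 𝒱}) : D))) q.1 = hfinsub a b χ q.1 := by
          unfold hfinsub
          congr 1
          ext g
          constructor
          · rintro ⟨p, hp, rfl⟩
            exact ⟨p, hp, by simp [hp]⟩
          · rintro ⟨p, hp, rfl⟩
            exact ⟨p, hp, by simp [hp]⟩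
        rw [this]
        exact h2
      · intro q
        exact (hclosed q).isCompact
      · exact hclosed
    obtain ⟨χ, hχ⟩ := hne
    rw [Set.mem_iInter] at hχ
    refine ⟨fun x i => (χ (x, i) : D), fun x i => (χ (x, i)).2, fun j hj => ?_⟩
    -- an element of the closure lies in the subgroup of finitely many conjugates
    have hex : ∀ g ∈ hsub a b (fun x i => (χ (x, i) : D)), ∃ L : Finset (G × ι),
        g ∈ hfinsub a b (fun p => (χ p : D)) L := by
      intro g hg
      unfold hsub at hg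
      induction hg using Subgroup.closure_induction with
      | mem g hg =>
        obtain ⟨x, i, rfl⟩ := hg
        exact ⟨{(x, i)}, Subgroup.subset_closure ⟨(x, i), by simp, rfl⟩⟩
      | one => exact ⟨∅, Subgroup.one_mem _⟩
      | mul x y _ _ hx hy =>
        obtain ⟨L, hL⟩ := hx
        obtain ⟨L', hL'⟩ := hy
        refine ⟨L ∪ L', Subgroup.mul_mem _ ?_ ?_⟩
        · refine Subgroup.closure_mono ?_ hL
          rintro g ⟨p, hp, rfl⟩
          exact ⟨p, Finset.mem_union_left _ hp, rfl⟩
        · refine Subgroup.closure_mono ?_ hL'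
          rintro g ⟨p, hp, rfl⟩
          exact ⟨p, Finset.mem_union_right _ hp, rfl⟩
      | inv x _ hx =>
        obtain ⟨L, hL⟩ := hx
        exact ⟨L, Subgroup.inv_mem _ hL⟩
    obtain ⟨L, hL⟩ := hex _ hj
    exact hχ (L, j) hL
  · refine ⟨fun _ i => (hι ⟨i⟩).elim, fun _ i => (hι ⟨i⟩).elim, fun j hj => ?_⟩
    have : hsub a b (fun _ i => (hι ⟨i⟩).elim) = ⊥ := by
      unfold hsub
      rw [Subgroup.closure_eq_bot_iff]
      rintro g ⟨x, i, -⟩
      exact (hι ⟨i⟩).elim
    rw [this, Subgroup.mem_bot] at hj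
    exact hf j hj

end Pool.Helper49.WR
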