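import Pool.Agent.Helper49.WR2.Kernel2

/-!
# Abelian subgroups normalised by two commuting elements

`annihilator`: let `a, b` be commuting elements of a co-context-free group.  Then there are vectors
`v₁, …, v_s ≠ 0` in `ℤ²` such that the iterated commutator of `c` with
`a ^ v₁.1 * b ^ v₁.2, …, a ^ v_s.1 * b ^ v_s.2` is trivial, for every `c` that commutes with all its
conjugates under `⟨a, b⟩`.
-/

set_option autoImplicit false

open scoped commutatorElement

namespace Pool.Helper49.WR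

private theorem exists_psi_comm {N : Type} [CommGroup N] (e : D → N) :
    ∃ ψ : R → N, ψ 0 = 1 ∧ (∀ f f', ψ (f + f') = ψ f * ψ f') ∧ ∀ v μ, ψ (pt v μ) = e v ^ μ := by
  let Φ : R →+ Additive N :=
    (Finsupp.liftAddHom fun v => zmultiplesHom (Additive N) (Additive.ofMul (e v))).comp
      AddMonoidAlgebra.coeffAddEquiv.toAddMonoidHom
  refine ⟨fun f => (Φ f).toMul, ?_, ?_, ?_⟩
  · simp
  · intro f f'
    simp
  · intro v μ
    simp [Φ, pt]

/-- A family of commuting elements indexed by `ℤ²` extends to a homomorphism from `ℤ[ℤ²]`. -/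
theorem exists_psi {G : Type} [Group G] (g : D → G) (hg : ∀ v w, Commute (g v) (g w)) :
    ∃ ψ : R → G, ψ 0 = 1 ∧ (∀ f f', ψ (f + f') = ψ f * ψ f') ∧ ∀ v μ, ψ (pt v μ) = g v ^ μ := by
  classical
  have hcomm : IsMulCommutative (Subgroup.closure (Set.range g)) := by
    refine Subgroup.isMulCommutative_closure ?_
    rintro _ ⟨v, rfl⟩ _ ⟨w, rfl⟩
    exact hg v w
  let inst : CommGroup (Subgroup.closure (Set.range g)) :=
    { (inferInstance : Group (Subgroup.closure (Set.range g))) with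
      mul_comm := fun x y => hcomm.is_comm.comm x y }
  obtain ⟨ψ, h1, h2, h3⟩ := @exists_psi_comm (Subgroup.closure (Set.range g)) inst
    fun v => ⟨g v, Subgroup.subset_closure ⟨v, rfl⟩⟩
  refine ⟨fun f => (ψ f : G), ?_, ?_, ?_⟩
  · show ((ψ 0 : Subgroup.closure (Set.range g)) : G) = 1
    rw [h1]
    rfl
  · intro f f'
    show ((ψ (f + f') : Subgroup.closure (Set.range g)) : G) = _
    rw [h2]
    rfl
  · intro v μ
    show ((ψ (pt v μ) : Subgroup.closure (Set.range g)) : G) = _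
    rw [h3]
    rfl

section
variable {G : Type} [Group G] {a b : G}

private theorem hh_add (hab : a * b = b * a) (v w : D) :
    a ^ (v + w).1 * b ^ (v + w).2 = (a ^ v.1 * b ^ v.2) * (a ^ w.1 * b ^ w.2) := by
  have hc : Commute a b := hab
  have h := (hc.zpow_zpow w.1 v.2).eq
  calc a ^ (v + w).1 * b ^ (v + w).2 = a ^ v.1 * (a ^ w.1 * b ^ v.2) * b ^ w.2 := by
        rw [Prod.fst_add, Prod.snd_add, zpow_add, zpow_add]
        group
    _ = _ := by
        rw [h]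
        group

/-- The properties of the homomorphism `ψ : ℤ[ℤ²] → ⟨c ^ ⟨a, b⟩⟩`. -/
structure Psi (a b c : G) (ψ : R → G) : Prop where
  zero : ψ 0 = 1
  add : ∀ f f', ψ (f + f') = ψ f * ψ f'
  pt : ∀ v μ, ψ (pt v μ) = (a ^ v.1 * b ^ v.2 * c * (a ^ v.1 * b ^ v.2)⁻¹) ^ μ

theorem exists_Psi (hab : a * b = b * a) (c : G)
    (hc : ∀ x y : ℤ, Commute c (a ^ x * b ^ y * c * (a ^ x * b ^ y)⁻¹)) :
    ∃ ψ : R → G, Psi a b c ψ := by
  have hg : ∀ v w : D, Commute (a ^ v.1 * b ^ v.2 * c * (a ^ v.1 * b ^ v.2)⁻¹)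
      (a ^ w.1 * b ^ w.2 * c * (a ^ w.1 * b ^ w.2)⁻¹) := by
    intro v w
    have h1 := hc (w - v).1 (w - v).2
    have h2 : a ^ w.1 * b ^ w.2 = (a ^ v.1 * b ^ v.2) * (a ^ (w - v).1 * b ^ (w - v).2) := by
      rw [← hh_add hab, add_sub_cancel]
    have h3 : a ^ w.1 * b ^ w.2 * c * (a ^ w.1 * b ^ w.2)⁻¹ = (a ^ v.1 * b ^ v.2) *
        (a ^ (w - v).1 * b ^ (w - v).2 * c * (a ^ (w - v).1 * b ^ (w - v).2)⁻¹) *
          (a ^ v.1 * b ^ v.2)⁻¹ := by
      rw [h2]
      group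
    rw [h3]
    exact (Commute.conj_iff _).2 h1
  obtain ⟨ψ, h1, h2, h3⟩ := exists_psi _ hg
  exact ⟨ψ, h1, h2, h3⟩

namespace Psi
variable {c : G} {ψ : R → G}

theorem neg (h : Psi a b c ψ) (f : R) : ψ (-f) = (ψ f)⁻¹ := by
  have h1 := h.add (-f) f
  rw [neg_add_cancel, h.zero] at h1
  exact eq_inv_of_mul_eq_one_left h1.symm

theorem sub (h : Psi a b c ψ) (f g : R) : ψ (f - g) = ψ f * (ψ g)⁻¹ := by
  rw [sub_eq_add_neg, h.add, h.neg]

theorem conj (h : Psi a b c ψ) (hab : a * b = b * a) (d : D) (f : R) :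
    (a ^ d.1 * b ^ d.2) * ψ f * (a ^ d.1 * b ^ d.2)⁻¹ = ψ (WR.pt d 1 * f) := by
  induction f using AddMonoidAlgebra.induction_linear with
  | zero => rw [mul_zero, h.zero]; simp
  | add f g hf hg =>
    rw [mul_add, h.add, h.add, ← hf, ← hg]
    group
  | single v μ =>
    have h1 : (AddMonoidAlgebra.single v μ : R) = WR.pt v μ := rfl
    rw [h1, pt_mul, h.pt, h.pt, one_mul, ← conj_zpow, hh_add hab]
    congr 1
    group

theorem ev (h : Psi a b c ψ) (hab : a * b = b * a) (w : List (D × ℤ)) :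
    WR.ev a b c w = ψ (cfg w) * (a ^ (dsp w).1 * b ^ (dsp w).2) := by
  induction w with
  | nil => simp [WR.ev, cfg, dsp, h.zero]
  | cons x w ih =>
    obtain ⟨d, μ⟩ := x
    have h1 : WR.ev a b c ((d, μ) :: w) = a ^ d.1 * b ^ d.2 * c ^ μ * WR.ev a b c w := by
      simp [WR.ev]
    have h2 : ψ (WR.pt 0 μ) = c ^ μ := by
      rw [h.pt]
      simp
    rw [h1, ih]
    show _ = ψ (WR.pt d 1 * (WR.pt 0 μ + cfg w)) * (a ^ (d + dsp w).1 * b ^ (d + dsp w).2)
    rw [← h.conj hab, h.add, h2, hh_add hab]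
    group

theorem commutator (h : Psi a b c ψ) (hab : a * b = b * a) (v : D) (f : R) :
    ⁅ψ f, a ^ v.1 * b ^ v.2⁆ = ψ ((1 - WR.pt v 1) * f) := by
  have h1 : ⁅ψ f, a ^ v.1 * b ^ v.2⁆ = ψ f * ((a ^ v.1 * b ^ v.2) * ψ f * (a ^ v.1 * b ^ v.2)⁻¹)⁻¹ := by
    rw [commutatorElement_def]
    group
  rw [h1, h.conj hab, ← h.sub, sub_mul, one_mul]

theorem iterated (h : Psi a b c ψ) (hab : a * b = b * a) (l : List D) (f : R) :
    l.foldl (fun x v => ⁅x, a ^ v.1 * b ^ v.2⁆) (ψ f) =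
      ψ ((l.map fun v => 1 - WR.pt v 1).prod * f) := by
  induction l generalizing f with
  | nil => simp
  | cons v l ih =>
    rw [List.foldl_cons, h.commutator hab, ih, List.map_cons, List.prod_cons]
    congr 1
    ring

end Psi

end

/-- Commuting elements `a, b` of a co-context-free group: a product of elements `1 - z ^ v` of
`ℤ[ℤ²]`, `v ≠ 0`, annihilates all abelian subgroups normalised by `a` and `b`. -/
theorem annihilator {G : Type} [Group G] (hG : CoCF G) (a b : G) (hab : a * b = b * a) :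
    ∃ l : List (ℤ × ℤ), (∀ v ∈ l, v ≠ 0) ∧
      ∀ c : G, (∀ x y : ℤ, Commute c (a ^ x * b ^ y * c * (a ^ x * b ^ y)⁻¹)) →
        l.foldl (fun x v => ⁅x, a ^ v.1 * b ^ v.2⁆) c = 1 := by
  by_cases ha : a = 1
  · refine ⟨[(1, 0)], by simp, fun c _ => ?_⟩
    simp [ha]
  by_cases hb : b = 1
  · refine ⟨[(0, 1)], by simp, fun c _ => ?_⟩
    simp [hb]
  obtain ⟨𝒱, h0, T, hT, w, hdsp, hcfg, hw⟩ := main2 hG hab ha hb
  refine ⟨𝒱.toList.map fun v => (T : ℤ) • v, ?_, fun c hc => ?_⟩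
  · intro v hv
    rw [List.mem_map] at hv
    obtain ⟨u, hu, rfl⟩ := hv
    rw [Finset.mem_toList] at hu
    have hu0 : u ≠ 0 := fun h => h0 (h ▸ hu)
    exact smul_ne_zero (by exact_mod_cast (by omega : T ≠ 0)) hu0
  · obtain ⟨ψ, hψ⟩ := exists_Psi hab c hc
    have h1 : ev a b c w = 1 := by
      apply hw c
      intro w' h1 h2
      rw [hψ.ev hab, h1, h2, hψ.zero]
      simp
    rw [hψ.ev hab, hdsp, hcfg] at h1
    have h2 : c = ψ (pt 0 1) := by
      rw [hψ.pt]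
      simp
    have h3 := hψ.iterated hab (𝒱.toList.map fun v => (T : ℤ) • v) (pt 0 1)
    rw [← h2, pt_zero_one, mul_one, List.map_map] at h3
    have h4 : (𝒱.toList.map ((fun v => (1 - pt v 1 : R)) ∘ fun v => (T : ℤ) • v)).prod =
        ∏ v ∈ 𝒱, (1 - pt ((T : ℤ) • v) 1) := by
      rw [← Finset.prod_map_toList]
      rfl
    have h5 : ((𝒱.toList.map fun v => (T : ℤ) • v).foldl (fun x v => ⁅x, a ^ v.1 * b ^ v.2⁆) c) =
        ψ (∏ v ∈ 𝒱, (1 - pt ((T : ℤ) • v) 1)) := by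
      rw [h3, h4]
    rw [h5]
    simpa using h1

end Pool.Helper49.WR
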