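import Pool.Agent.Helper49.WR.Colour

/-!
# Rows of blocks with tails

The blocks are arranged in rows of length `N + m`: in each row the first `N` blocks have the letters
`z 0, z 1, z 2, z 3, z 0, …` (of values `a, b, a⁻¹, b⁻¹`), the last `m` blocks (the tail of row `j`)
have the letters `tl j 0, …, tl j (m-1)`.
-/

set_option autoImplicit false

namespace Pool.Helper49.WR

/-- The letter of block `i`, for rows of length `N + m`. -/
def lett2 {Λ : Type} (N m : ℕ) (z : ℕ → Λ) (tl : ℕ → ℕ → Λ) (i : ℕ) : Λ :=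
  if i % (N + m) < N then z (i % (N + m) % 4) else tl (i / (N + m)) (i % (N + m) - N)

/-- `x`-displacement of row `j`. -/
def xs2 (N m : ℕ) (e : ℕ → ℤ) (j : ℕ) : ℤ :=
  ∑ q ∈ Finset.range N, (if q % 4 = 0 then e (j * (N + m) + q)
    else if q % 4 = 2 then - e (j * (N + m) + q) else 0)

/-- `y`-displacement of row `j`. -/
def ys2 (N m : ℕ) (e : ℕ → ℤ) (j : ℕ) : ℤ :=
  ∑ q ∈ Finset.range N, (if q % 4 = 1 then e (j * (N + m) + q)
    else if q % 4 = 3 then - e (j * (N + m) + q) else 0)

private theorem rep2 {T G : Type} [Group G] (f : T → G) (x : List T) (k : ℕ) :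
    ((List.replicate k x).flatten.map f).prod = ((x.map f).prod) ^ k := by
  induction k with
  | zero => simp
  | succ k ih =>
    rw [List.replicate_succ, List.flatten_cons, List.map_append, List.prod_append, ih, pow_succ']

/-- the product of the first `k` blocks -/
private def pp2 {Λ G : Type} [Group G] (V : Λ → G) (ℓ : ℕ → Λ) (e : ℕ → ℕ) (k : ℕ) : G :=
  ((List.range k).map fun i => V (ℓ i) ^ e i).prod

private theorem bword_prod2 {T Λ G : Type} [Group G] (f : T → G)
    (X : Λ → List T) (ℓ : ℕ → Λ) (k : ℕ) (e : ℕ → ℕ) :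
    ((bword X ℓ k e).map f).prod = pp2 (fun l => ((X l).map f).prod) ℓ e k := by
  unfold bword pp2
  induction k with
  | zero => simp
  | succ k ih =>
    rw [List.range_succ, List.flatMap_append, List.map_append, List.prod_append, ih, List.map_append,
      List.prod_append]
    congr 1
    rw [List.flatMap_cons, List.flatMap_nil, List.append_nil, rep2]
    simp

private theorem pp_succ2 {Λ G : Type} [Group G] (V : Λ → G) (ℓ : ℕ → Λ) (e : ℕ → ℕ) (k : ℕ) :
    pp2 V ℓ e (k + 1) = pp2 V ℓ e k * V (ℓ k) ^ e k := by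
  unfold pp2
  rw [List.range_succ, List.map_append, List.prod_append]
  simp

private theorem mod2 (L j q : ℕ) (hq : q < L) : (j * L + q) % L = q := by
  rw [Nat.add_comm, Nat.add_mul_mod_self_right, Nat.mod_eq_of_lt hq]

private theorem div2 (L j q : ℕ) (hq : q < L) : (j * L + q) / L = j := by
  rw [Nat.add_comm, Nat.add_mul_div_right _ _ (by omega), Nat.div_eq_of_lt hq, zero_add]

private theorem row2 {Λ G : Type} [Group G] {a b : G} (hab : a * b = b * a) (V : Λ → G) (N m : ℕ)
    (z : ℕ → Λ) (tl : ℕ → ℕ → Λ) (h0 : V (z 0) = a) (h1 : V (z 1) = b) (h2 : V (z 2) = a⁻¹)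
    (h3 : V (z 3) = b⁻¹) (j : ℕ) (e : ℕ → ℕ) (q : ℕ) (hq : q ≤ N) :
    pp2 V (lett2 N m z tl) e (j * (N + m) + q) = pp2 V (lett2 N m z tl) e (j * (N + m)) *
      (a ^ (∑ q ∈ Finset.range q, (if q % 4 = 0 then (e (j * (N + m) + q) : ℤ)
        else if q % 4 = 2 then - (e (j * (N + m) + q) : ℤ) else 0)) *
      b ^ (∑ q ∈ Finset.range q, (if q % 4 = 1 then (e (j * (N + m) + q) : ℤ)
        else if q % 4 = 3 then - (e (j * (N + m) + q) : ℤ) else 0))) := by
  have hc : Commute a b := hab
  induction q with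
  | zero => simp
  | succ q ih =>
    have hq' : q < N := hq
    rw [← add_assoc, pp_succ2, ih hq'.le, Finset.sum_range_succ, Finset.sum_range_succ, mul_assoc]
    congr 1
    set s := ∑ q ∈ Finset.range q, (if q % 4 = 0 then (e (j * (N + m) + q) : ℤ)
        else if q % 4 = 2 then - (e (j * (N + m) + q) : ℤ) else 0)
    set t := ∑ q ∈ Finset.range q, (if q % 4 = 1 then (e (j * (N + m) + q) : ℤ)
        else if q % 4 = 3 then - (e (j * (N + m) + q) : ℤ) else 0)
    set k := e (j * (N + m) + q)
    have hl : lett2 N m z tl (j * (N + m) + q) = z (q % 4) := by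
      unfold lett2
      rw [mod2 (N + m) j q (by omega), if_pos hq']
    rw [hl]
    have h4 : q % 4 = 0 ∨ q % 4 = 1 ∨ q % 4 = 2 ∨ q % 4 = 3 := by omega
    rcases h4 with h | h | h | h
    · rw [h, h0, if_pos rfl, if_neg (by omega), if_neg (by omega), add_zero, ← zpow_natCast,
        zpow_add, mul_assoc, mul_assoc, (hc.zpow_zpow (k : ℤ) t).eq]
    · rw [h, h1, if_neg (by omega), if_neg (by omega), if_pos rfl, add_zero, ← zpow_natCast,
        zpow_add, mul_assoc]
    · rw [h, h2, if_neg (by omega), if_pos rfl, if_neg (by omega), if_neg (by omega), add_zero,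
        ← zpow_natCast, inv_zpow', zpow_add, mul_assoc, mul_assoc, (hc.zpow_zpow (-(k : ℤ)) t).eq]
    · rw [h, h3, if_neg (by omega), if_neg (by omega), if_neg (by omega), if_pos rfl, add_zero,
        ← zpow_natCast, inv_zpow', zpow_add, mul_assoc]

private theorem tail2 {Λ G : Type} [Group G] (V : Λ → G) (N m : ℕ)
    (z : ℕ → Λ) (tl : ℕ → ℕ → Λ) (j : ℕ) (e : ℕ → ℕ) (r : ℕ) (hr : r ≤ m) :
    pp2 V (lett2 N m z tl) e (j * (N + m) + N + r) = pp2 V (lett2 N m z tl) e (j * (N + m) + N) *
      ((List.range r).map fun r => V (tl j r) ^ e (j * (N + m) + N + r)).prod := by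
  induction r with
  | zero => simp
  | succ r ih =>
    have hr' : r < m := hr
    rw [← add_assoc, pp_succ2, ih hr'.le, List.range_succ, List.map_append, List.prod_append,
      mul_assoc]
    congr 1
    have hl : lett2 N m z tl (j * (N + m) + N + r) = tl j r := by
      unfold lett2
      rw [add_assoc, mod2 (N + m) j (N + r) (by omega), if_neg (by omega),
        div2 (N + m) j (N + r) (by omega)]
      congr 1
      omega
    rw [hl]
    simp

/-- The word of moves and exponents given by the rows, the exponents of `c` are those of `w`. -/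
def unword2 (N m : ℕ) (w : List (D × ℤ)) (e : ℕ → ℤ) : List (D × ℤ) :=
  w.mapIdx fun j x => ((xs2 N m e j, ys2 N m e j), x.2)

theorem eval_bword2 {T Λ G : Type} [Group G] {a b c : G} (hab : a * b = b * a) (f : T → G)
    (X : Λ → List T) (N m : ℕ) (z : ℕ → Λ) (tl : ℕ → ℕ → Λ)
    (h0 : ((X (z 0)).map f).prod = a) (h1 : ((X (z 1)).map f).prod = b)
    (h2 : ((X (z 2)).map f).prod = a⁻¹) (h3 : ((X (z 3)).map f).prod = b⁻¹)
    (w : List (D × ℤ)) (e : ℕ → ℕ)
    (htl : ∀ j (hj : j < w.length), ((List.range m).map fun r =>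
      ((X (tl j r)).map f).prod ^ e (j * (N + m) + N + r)).prod = c ^ (w[j].2)) :
    ((bword X (lett2 N m z tl) (w.length * (N + m)) e).map f).prod =
      ev a b c (unword2 N m w fun i => (e i : ℤ)) := by
  rw [bword_prod2 f X]
  set V : Λ → G := fun l => ((X l).map f).prod with hV
  have key : ∀ n ≤ w.length, pp2 V (lett2 N m z tl) e (n * (N + m)) =
      ev a b c ((unword2 N m w fun i => (e i : ℤ)).take n) := by
    intro n
    induction n with
    | zero => intro _; simp [pp2, ev]
    | succ n ih =>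
      intro hn
      have hn' : n < w.length := hn
      have e1 : (n + 1) * (N + m) = n * (N + m) + N + m := by ring
      rw [e1, tail2 V N m z tl n e m le_rfl, row2 hab V N m z tl h0 h1 h2 h3 n e N le_rfl,
        ih hn'.le]
      have hlen : n < (unword2 N m w fun i => (e i : ℤ)).length := by
        simpa [unword2] using hn'
      rw [List.take_succ_eq_append_getElem hlen]
      unfold ev
      rw [List.map_append, List.prod_append]
      simp only [List.map_cons, List.map_nil, List.prod_cons, List.prod_nil, mul_one]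
      rw [htl n hn']
      simp only [unword2, List.getElem_mapIdx, mul_assoc]
      rfl
  have h := key w.length le_rfl
  rw [h]
  congr 1
  apply List.take_of_length_le
  simp [unword2]

/-- The exponents for the word `w` with levels `U` and tail lengths `tn`. -/
def expo2 (m : ℕ) (U : ℕ → ℕ) (tn : ℕ → ℕ) (w : List (D × ℤ)) (i : ℕ) : ℕ :=
  let N := 4 * 2 ^ w.length
  let j := i / (N + m)
  let q := i % (N + m)
  let x := (w.getD j ((0, 0), 0)).1.1
  let y := (w.getD j ((0, 0), 0)).1.2
  if w.length ≤ j then 0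
  else if q < 4 * 2 ^ (w.length - 1 - j) then
    U j + (if q = 0 then x.toNat else if q = 1 then y.toNat else if q = 2 then (-x).toNat
      else if q = 3 then (-y).toNat else 0)
  else if q < N then 0
  else if q - N < tn j then 1
  else 0

/-- alternating sums over blocks of four -/
private theorem alt2 (F : ℕ → ℤ) (r s : ℕ) (hr : r < 4) (hs : s < 4) (hrs : r ≠ s) (m : ℕ) :
    ∑ q ∈ Finset.range (4 * m), (if q % 4 = r then F q else if q % 4 = s then - F q else 0) =
      ∑ i ∈ Finset.range m, (F (4 * i + r) - F (4 * i + s)) := by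
  induction m with
  | zero => simp
  | succ m ih =>
    have h : 4 * (m + 1) = 4 * m + 1 + 1 + 1 + 1 := by ring
    rw [h, Finset.sum_range_succ, Finset.sum_range_succ, Finset.sum_range_succ, Finset.sum_range_succ, ih,
      Finset.sum_range_succ]
    have e0 : (4 * m) % 4 = 0 := by omega
    have e1 : (4 * m + 1) % 4 = 1 := by omega
    have e2 : (4 * m + 1 + 1) % 4 = 2 := by omega
    have e3 : (4 * m + 1 + 1 + 1) % 4 = 3 := by omega
    rw [e0, e1, e2, e3]
    interval_cases r <;> interval_cases s <;> simp at hrs ⊢ <;> ring_nf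

private theorem first2 (F : ℕ → ℤ) (m : ℕ) (hm : 0 < m) (h : ∀ i, 0 < i → F i = 0) :
    ∑ i ∈ Finset.range m, F i = F 0 := by
  rw [Finset.sum_eq_single 0]
  · intro b _ hb
    exact h b (Nat.pos_of_ne_zero hb)
  · intro h0
    exact absurd (Finset.mem_range.2 hm) h0

theorem expo2_val (m : ℕ) (U tn : ℕ → ℕ) (w : List (D × ℤ)) (j : ℕ) (hj : j < w.length) (q : ℕ)
    (hq : q < 4 * 2 ^ w.length + m) :
    expo2 m U tn w (j * (4 * 2 ^ w.length + m) + q) =
      if q < 4 * 2 ^ (w.length - 1 - j) then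
        U j + (if q = 0 then (w[j].1.1).toNat else if q = 1 then (w[j].1.2).toNat
          else if q = 2 then (-w[j].1.1).toNat else if q = 3 then (-w[j].1.2).toNat else 0)
      else if q < 4 * 2 ^ w.length then 0
      else if q - 4 * 2 ^ w.length < tn j then 1
      else 0 := by
  unfold expo2
  simp only [div2 (4 * 2 ^ w.length + m) j q hq, mod2 (4 * 2 ^ w.length + m) j q hq]
  have hg : w.getD j ((0, 0), 0) = w[j] := by
    rw [List.getD_eq_getElem?_getD, List.getElem?_eq_getElem hj, Option.getD_some]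
  rw [hg, if_neg (by omega)]

theorem unword2_expo2 (m : ℕ) (U tn : ℕ → ℕ) (w : List (D × ℤ)) :
    unword2 (4 * 2 ^ w.length) m w (fun i => (expo2 m U tn w i : ℤ)) = w := by
  have hval : ∀ j (hj : j < w.length) q, q < 4 * 2 ^ w.length →
      (expo2 m U tn w (j * (4 * 2 ^ w.length + m) + q) : ℤ) =
        if q < 4 * 2 ^ (w.length - 1 - j) then
          (U j : ℤ) + (if q = 0 then (w[j].1.1.toNat : ℤ) else if q = 1 then (w[j].1.2.toNat : ℤ)
            else if q = 2 then ((-w[j].1.1).toNat : ℤ) else if q = 3 then ((-w[j].1.2).toNat : ℤ) else 0)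
        else 0 := by
    intro j hj q hq
    rw [expo2_val m U tn w j hj q (by omega), if_pos hq]
    push_cast
    rfl
  have hK : ∀ j, 4 * 2 ^ (w.length - 1 - j) ≤ 4 * 2 ^ w.length := fun j =>
    Nat.mul_le_mul_left 4 (Nat.pow_le_pow_right (by norm_num) (by omega))
  apply List.ext_getElem
  · simp [unword2]
  · intro j hj hj'
    have hsum : ∀ r s : ℕ, r < 4 → s < 4 → r ≠ s →
        ∑ q ∈ Finset.range (4 * 2 ^ w.length), (if q % 4 = r then
            (expo2 m U tn w (j * (4 * 2 ^ w.length + m) + q) : ℤ)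
          else if q % 4 = s then - (expo2 m U tn w (j * (4 * 2 ^ w.length + m) + q) : ℤ) else 0) =
        (if r = 0 then (w[j].1.1.toNat : ℤ) else if r = 1 then (w[j].1.2.toNat : ℤ)
            else if r = 2 then ((-w[j].1.1).toNat : ℤ) else if r = 3 then ((-w[j].1.2).toNat : ℤ) else 0) -
        (if s = 0 then (w[j].1.1.toNat : ℤ) else if s = 1 then (w[j].1.2.toNat : ℤ)
            else if s = 2 then ((-w[j].1.1).toNat : ℤ) else if s = 3 then ((-w[j].1.2).toNat : ℤ) else 0) := by
      intro r s hr hs hrs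
      set g : ℕ → ℤ := fun q => (U j : ℤ) + (if q = 0 then (w[j].1.1.toNat : ℤ)
        else if q = 1 then (w[j].1.2.toNat : ℤ)
            else if q = 2 then ((-w[j].1.1).toNat : ℤ) else if q = 3 then ((-w[j].1.2).toNat : ℤ) else 0) with hg
      have h1 : ∑ q ∈ Finset.range (4 * 2 ^ w.length), (if q % 4 = r then
            (expo2 m U tn w (j * (4 * 2 ^ w.length + m) + q) : ℤ)
          else if q % 4 = s then - (expo2 m U tn w (j * (4 * 2 ^ w.length + m) + q) : ℤ) else 0) =
          ∑ q ∈ Finset.range (4 * 2 ^ (w.length - 1 - j)), (if q % 4 = r then g q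
          else if q % 4 = s then - g q else 0) := by
        symm
        rw [← Finset.sum_subset (Finset.range_mono (hK j))]
        · apply Finset.sum_congr rfl
          intro q hq
          have hq' := Finset.mem_range.1 hq
          have := hK j
          rw [hval j hj' q (by omega), if_pos hq']
        · intro q hq hq'
          have h2 := Finset.mem_range.1 hq
          have h3 : ¬ q < 4 * 2 ^ (w.length - 1 - j) := fun h => hq' (Finset.mem_range.2 h)
          rw [hval j hj' q (by omega), if_neg h3]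
          simp
      rw [h1, alt2 g r s hr hs hrs, first2 _ _ (pow_pos (by norm_num) _)]
      · simp only [hg, mul_zero, zero_add]
        ring
      · intro i hi
        have h5 : ∀ t, t < 4 → g (4 * i + t) = U j := by
          intro t ht
          simp only [hg]
          rw [if_neg (by omega), if_neg (by omega), if_neg (by omega), if_neg (by omega), add_zero]
        rw [h5 r hr, h5 s hs, sub_self]
    have hx : xs2 (4 * 2 ^ w.length) m (fun i => (expo2 m U tn w i : ℤ)) j = w[j].1.1 := by
      unfold xs2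
      rw [hsum 0 2 (by norm_num) (by norm_num) (by norm_num)]
      simp only [if_true]
      norm_num
    have hy : ys2 (4 * 2 ^ w.length) m (fun i => (expo2 m U tn w i : ℤ)) j = w[j].1.2 := by
      unfold ys2
      rw [hsum 1 3 (by norm_num) (by norm_num) (by norm_num)]
      norm_num
    unfold unword2
    rw [List.getElem_mapIdx, hx, hy]

private theorem rowr2 {L j j' k l : ℕ} (hk : k < L) (hl : l < L)
    (h : j' * L + k = j * L + l) : j' = j := by
  rw [← div2 L j' k hk, h, div2 L j l hl]

theorem row_colour2 (N m j q : ℕ) (hq : q + 1 < N) (Δ : ℕ → ℤ) (C₂ : ℤ)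
    (h0 : ∀ i, i ≠ j * (N + m) + q → i ≠ j * (N + m) + q + 1 → Δ i = 0)
    (hne : ¬ (Δ (j * (N + m) + q) = 0 ∧ Δ (j * (N + m) + q + 1) = 0))
    (h₁ : |Δ (j * (N + m) + q)| ≤ C₂) (h₂ : |Δ (j * (N + m) + q + 1)| ≤ C₂) :
    ((xs2 N m Δ j, ys2 N m Δ j) : D) ≠ 0 ∧ |xs2 N m Δ j| ≤ C₂ ∧ |ys2 N m Δ j| ≤ C₂ ∧
      ∀ j', j' ≠ j → xs2 N m Δ j' = 0 ∧ ys2 N m Δ j' = 0 := by
  classical
  have hx : xs2 N m Δ j = (if q % 4 = 0 then Δ (j * (N + m) + q)
      else if q % 4 = 2 then - Δ (j * (N + m) + q) else 0) +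
      (if (q + 1) % 4 = 0 then Δ (j * (N + m) + (q + 1))
      else if (q + 1) % 4 = 2 then - Δ (j * (N + m) + (q + 1)) else 0) := by
    unfold xs2
    refine Finset.sum_eq_add (a := q) (b := q + 1) (by omega) ?_ ?_ ?_
    · rintro c - ⟨h1, h2⟩
      rw [h0 (j * (N + m) + c) (by omega) (by omega)]
      simp
    · intro h
      exact absurd (Finset.mem_range.2 (by omega)) h
    · intro h
      exact absurd (Finset.mem_range.2 (by omega)) h
  have hy : ys2 N m Δ j = (if q % 4 = 1 then Δ (j * (N + m) + q)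
      else if q % 4 = 3 then - Δ (j * (N + m) + q) else 0) +
      (if (q + 1) % 4 = 1 then Δ (j * (N + m) + (q + 1))
      else if (q + 1) % 4 = 3 then - Δ (j * (N + m) + (q + 1)) else 0) := by
    unfold ys2
    refine Finset.sum_eq_add (a := q) (b := q + 1) (by omega) ?_ ?_ ?_
    · rintro c - ⟨h1, h2⟩
      rw [h0 (j * (N + m) + c) (by omega) (by omega)]
      simp
    · intro h
      exact absurd (Finset.mem_range.2 (by omega)) h
    · intro h
      exact absurd (Finset.mem_range.2 (by omega)) h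
  have hA : j * (N + m) + (q + 1) = j * (N + m) + q + 1 := rfl
  rw [hA] at hx hy
  have hrest : ∀ j', j' ≠ j → xs2 N m Δ j' = 0 ∧ ys2 N m Δ j' = 0 := by
    intro j' hj'
    have hz : ∀ k, k < N + m → Δ (j' * (N + m) + k) = 0 := by
      intro k hk
      refine h0 _ (fun h => hj' (rowr2 hk (by omega) h)) (fun h => hj' (rowr2 hk (l := q + 1)
        (by omega) h))
    refine ⟨?_, ?_⟩
    · unfold xs2
      refine Finset.sum_eq_zero fun k hk => ?_
      rw [Finset.mem_range] at hk
      rw [hz k (by omega)]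
      simp
    · unfold ys2
      refine Finset.sum_eq_zero fun k hk => ?_
      rw [Finset.mem_range] at hk
      rw [hz k (by omega)]
      simp
  generalize Δ (j * (N + m) + q) = u at *
  generalize Δ (j * (N + m) + q + 1) = v at *
  have hpair : ∀ p r : ℤ, ¬ (p = 0 ∧ r = 0) → ((p, r) : D) ≠ 0 := by
    intro p r h h1
    exact h ⟨congrArg Prod.fst h1, congrArg Prod.snd h1⟩
  have h4 : q % 4 < 4 := Nat.mod_lt _ (by norm_num)
  have h5 : (q % 4 = 0 ∧ (q + 1) % 4 = 1) ∨ (q % 4 = 1 ∧ (q + 1) % 4 = 2) ∨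
      (q % 4 = 2 ∧ (q + 1) % 4 = 3) ∨ (q % 4 = 3 ∧ (q + 1) % 4 = 0) := by omega
  refine ⟨?_, ?_, ?_, hrest⟩
  · refine hpair _ _ ?_
    rintro ⟨e1, e2⟩
    rcases h5 with h5 | h5 | h5 | h5 <;> rw [hx, h5.1, h5.2] at e1 <;>
      rw [hy, h5.1, h5.2] at e2 <;> norm_num at e1 e2
    · exact hne ⟨e1, e2⟩
    · exact hne ⟨e2, e1⟩
    · exact hne ⟨e1, e2⟩
    · exact hne ⟨e2, e1⟩
  · rcases h5 with h5 | h5 | h5 | h5 <;> rw [hx, h5.1, h5.2] <;> norm_num <;> assumption
  · rcases h5 with h5 | h5 | h5 | h5 <;> rw [hy, h5.1, h5.2] <;> norm_num <;> assumption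

private theorem geo2 (n : ℕ) : ∑ k ∈ Finset.range n, 2 ^ (n - 1 - k) + 1 = 2 ^ n := by
  induction n with
  | zero => simp
  | succ n ih =>
    rw [Finset.sum_range_succ']
    have h1 : ∑ k ∈ Finset.range n, 2 ^ (n + 1 - 1 - (k + 1)) =
        ∑ k ∈ Finset.range n, 2 ^ (n - 1 - k) := by
      refine Finset.sum_congr rfl fun k _ => ?_
      congr 1
      omega
    rw [h1, Nat.add_sub_cancel, Nat.sub_zero, pow_succ]
    omega

theorem card_high2 (R M j : ℕ) (hM : 0 < M) (hj : j < R) :
    ((Finset.range (R * M)).filter fun i =>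
      j < i / M ∧ i % M < 4 * 2 ^ (R - 1 - i / M)).card < 4 * 2 ^ (R - 1 - j) := by
  classical
  have hsub : ((Finset.range (R * M)).filter fun i => j < i / M ∧ i % M < 4 * 2 ^ (R - 1 - i / M)) ⊆
      (Finset.range (R - 1 - j)).biUnion fun k =>
        (Finset.range (4 * 2 ^ (R - 1 - j - 1 - k))).image fun l => (j + 1 + k) * M + l := by
    intro i hi
    rw [Finset.mem_filter, Finset.mem_range] at hi
    obtain ⟨h1, h2, h3⟩ := hi
    have h4 : i / M < R := Nat.div_lt_of_lt_mul (by rw [mul_comm]; exact h1)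
    rw [Finset.mem_biUnion]
    refine ⟨i / M - (j + 1), Finset.mem_range.2 (by omega), Finset.mem_image.2 ⟨i % M, ?_, ?_⟩⟩
    · rw [Finset.mem_range]
      have h5 : R - 1 - j - 1 - (i / M - (j + 1)) = R - 1 - i / M := by omega
      rw [h5]
      exact h3
    · have h5 : j + 1 + (i / M - (j + 1)) = i / M := by omega
      rw [h5, mul_comm]
      exact Nat.div_add_mod i M
  have h1 : ((Finset.range (R * M)).filter fun i =>
      j < i / M ∧ i % M < 4 * 2 ^ (R - 1 - i / M)).card ≤
      ∑ k ∈ Finset.range (R - 1 - j), 4 * 2 ^ (R - 1 - j - 1 - k) := by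
    refine le_trans (Finset.card_le_card hsub) (le_trans Finset.card_biUnion_le ?_)
    refine Finset.sum_le_sum fun k _ => ?_
    exact le_trans Finset.card_image_le (le_of_eq (Finset.card_range _))
  rw [← Finset.mul_sum] at h1
  have h2 := geo2 (R - 1 - j)
  omega

end Pool.Helper49.WR
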