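import Pool.Agent.Helper49.WR.Main
import Pool.Agent.Helper49.WR2.Rows

/-!
# The kernel of project WR, uniform in `c`

`main2`: let `a, b ≠ 1` be commuting elements of a co-context-free group.  Then there is a word `w`
with configuration `∏ v ∈ 𝒱, (1 - z ^ (T v))` and displacement `0` whose value is `1` for every `c`
such that all words in `a, b, c` with zero configuration and zero displacement have value `1`.
The powers of `c` are written letter by letter, each letter being a block with exponent `1`, so that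
the constant of `parikh` does not depend on `c`.
-/

set_option autoImplicit false

namespace Pool.Helper49.WR

theorem tail_eval {T G : Type} [Group G] (f : T → G) (t0 : T) (τ : List T) (m : ℕ)
    (hm : τ.length ≤ m) :
    ((List.range m).map fun r => f (τ.getD r t0) ^ (if r < τ.length then 1 else 0)).prod =
      (τ.map f).prod := by
  obtain ⟨k, rfl⟩ := Nat.exists_eq_add_of_le hm
  rw [List.range_add, List.map_append, List.prod_append, List.map_map]
  have h1 : ((List.range τ.length).map fun r => f (τ.getD r t0) ^ (if r < τ.length then 1 else 0)) =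
      τ.map f := by
    apply List.ext_getElem
    · simp
    · intro i h1 h2
      have h3 : i < τ.length := by simpa using h2
      simp [h3]
  have h2 : ((List.range k).map ((fun r => f (τ.getD r t0) ^ (if r < τ.length then 1 else 0)) ∘
      fun x => τ.length + x)).prod = 1 := by
    apply List.prod_eq_one
    intro x hx
    rw [List.mem_map] at hx
    obtain ⟨r, -, rfl⟩ := hx
    simp
  rw [h1, h2, mul_one]

theorem expo2_zero (m : ℕ) (U tn : ℕ → ℕ) (w : List (D × ℤ)) {i : ℕ}
    (h : w.length * (4 * 2 ^ w.length + m) ≤ i) : expo2 m U tn w i = 0 := by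
  unfold expo2
  have : w.length ≤ i / (4 * 2 ^ w.length + m) := by
    rw [Nat.le_div_iff_mul_le (by positivity)]
    exact h
  simp only [this, if_true]

theorem expo2_high (m : ℕ) (U tn : ℕ → ℕ) (w : List (D × ℤ)) (D0 : ℕ)
    (hD : ∀ x ∈ w, x.1.1.natAbs ≤ D0 ∧ x.1.2.natAbs ≤ D0 ∧ x.2.natAbs ≤ D0) {i : ℕ}
    (h : i / (4 * 2 ^ w.length + m) < w.length)
    (hq : i % (4 * 2 ^ w.length + m) < 4 * 2 ^ (w.length - 1 - i / (4 * 2 ^ w.length + m))) :
    U (i / (4 * 2 ^ w.length + m)) ≤ expo2 m U tn w i ∧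
      expo2 m U tn w i ≤ U (i / (4 * 2 ^ w.length + m)) + D0 := by
  obtain ⟨h1, h2, h3⟩ := getD_bound w D0 hD (i / (4 * 2 ^ w.length + m))
  unfold expo2
  simp only [not_le.mpr h, if_false, hq, if_true]
  constructor
  · omega
  · split_ifs <;> omega

theorem expo2_low (m : ℕ) (U tn : ℕ → ℕ) (w : List (D × ℤ)) {i : ℕ}
    (hq : ¬ (i / (4 * 2 ^ w.length + m) < w.length ∧
      i % (4 * 2 ^ w.length + m) < 4 * 2 ^ (w.length - 1 - i / (4 * 2 ^ w.length + m)))) :
    expo2 m U tn w i ≤ 1 := by
  unfold expo2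
  by_cases h : w.length ≤ i / (4 * 2 ^ w.length + m)
  · simp [h]
  · have hq' : ¬ i % (4 * 2 ^ w.length + m) <
        4 * 2 ^ (w.length - 1 - i / (4 * 2 ^ w.length + m)) := fun hh => hq ⟨by omega, hh⟩
    simp only [h, if_false, hq']
    split_ifs <;> omega

theorem xs2_add (N m : ℕ) (e f : ℕ → ℤ) (j : ℕ) :
    xs2 N m (fun i => e i + f i) j = xs2 N m e j + xs2 N m f j := by
  unfold xs2
  rw [← Finset.sum_add_distrib]
  apply Finset.sum_congr rfl
  intro q _
  split_ifs <;> ring

theorem ys2_add (N m : ℕ) (e f : ℕ → ℤ) (j : ℕ) :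
    ys2 N m (fun i => e i + f i) j = ys2 N m e j + ys2 N m f j := by
  unfold ys2
  rw [← Finset.sum_add_distrib]
  apply Finset.sum_congr rfl
  intro q _
  split_ifs <;> ring

theorem xs2_mul (N m : ℕ) (t : ℤ) (e : ℕ → ℤ) (j : ℕ) :
    xs2 N m (fun i => t * e i) j = t * xs2 N m e j := by
  unfold xs2
  rw [Finset.mul_sum]
  apply Finset.sum_congr rfl
  intro q _
  split_ifs <;> ring

theorem ys2_mul (N m : ℕ) (t : ℤ) (e : ℕ → ℤ) (j : ℕ) :
    ys2 N m (fun i => t * e i) j = t * ys2 N m e j := by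
  unfold ys2
  rw [Finset.mul_sum]
  apply Finset.sum_congr rfl
  intro q _
  split_ifs <;> ring

theorem xs2_sum (N m : ℕ) (S : Finset ℕ) (t : ℕ → ℤ) (Δ : ℕ → ℕ → ℤ) (j : ℕ) :
    xs2 N m (fun i => ∑ r ∈ S, t r * Δ r i) j = ∑ r ∈ S, t r * xs2 N m (Δ r) j := by
  induction S using Finset.cons_induction with
  | empty => simp [xs2]
  | cons r S hr ih =>
    simp only [Finset.sum_cons]
    rw [xs2_add, xs2_mul, ih]

theorem ys2_sum (N m : ℕ) (S : Finset ℕ) (t : ℕ → ℤ) (Δ : ℕ → ℕ → ℤ) (j : ℕ) :
    ys2 N m (fun i => ∑ r ∈ S, t r * Δ r i) j = ∑ r ∈ S, t r * ys2 N m (Δ r) j := by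
  induction S using Finset.cons_induction with
  | empty => simp [ys2]
  | cons r S hr ih =>
    simp only [Finset.sum_cons]
    rw [ys2_add, ys2_mul, ih]

theorem row_unique {L j j' k l : ℕ} (hk : k < L) (hl : l < L)
    (h : j' * L + k = j * L + l) : j' = j ∧ k = l := by
  have h1 : (j' * L + k) / L = j' := by
    rw [mul_comm, Nat.mul_add_div (by omega), Nat.div_eq_of_lt hk, add_zero]
  have h2 : (j * L + l) / L = j := by
    rw [mul_comm, Nat.mul_add_div (by omega), Nat.div_eq_of_lt hl, add_zero]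
  have h3 : j' = j := by rw [← h1, h, h2]
  subst h3
  exact ⟨rfl, by omega⟩

/-- The values of the four letters. -/
def axisval {G : Type} [Group G] (a b : G) (l : Fin 4) : G :=
  if l = 0 then a else if l = 1 then b else if l = 2 then a⁻¹ else b⁻¹

theorem main2 {G : Type} [Group G] (hG : CoCF G) {a b : G} (hab : a * b = b * a)
    (ha : a ≠ 1) (hb : b ≠ 1) :
    ∃ 𝒱 : Finset D, (0 : D) ∉ 𝒱 ∧ ∃ T : ℕ, 1 ≤ T ∧ ∃ w : List (D × ℤ), dsp w = 0 ∧
      cfg w = ∏ v ∈ 𝒱, (1 - pt ((T : ℤ) • v) 1) ∧ ∀ c : G,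
        (∀ w : List (D × ℤ), cfg w = 0 → dsp w = 0 → ev a b c w = 1) → ev a b c w = 1 := by
  classical
  have hval : ∀ l : Fin 4, axisval a b l ≠ 1 := by
    intro l
    fin_cases l <;> simp [axisval, ha, hb]
  obtain ⟨n, f, hf, g, hg⟩ := hG
  choose X0 hX0 using hf
  have hX0' : ∀ x : G, ((X0 x).map f).prod = x := hX0
  set X : Fin 4 ⊕ Fin n → List (Fin n) := Sum.elim (fun l => X0 (axisval a b l)) (fun t => [t])
    with hXdef
  have hX : ∀ l, ((X (Sum.inl l)).map f).prod = axisval a b l := fun l => hX0' _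
  have hXne : ∀ l, X l ≠ [] := by
    rintro (l | t) hl
    · have := hX l
      rw [hl] at this
      exact hval l (by simpa using this.symm)
    · simp [hXdef] at hl
  obtain ⟨t0⟩ : Nonempty (Fin n) := by
    rcases hXa : X (Sum.inl 0) with _ | ⟨t, u⟩
    · exact absurd hXa (hXne _)
    · exact ⟨t⟩
  have hmem : ∀ u : List (Fin n), u ∈ g.language ↔ (u.map f).prod ≠ 1 := by
    intro u
    rw [hg]
    rfl
  obtain ⟨C, hPL⟩ := parikh g X hXne
  -- the colours
  let 𝒱 : Finset D := ((Finset.Icc (-(C : ℤ) ^ 2) ((C : ℤ) ^ 2)) ×ˢ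
    (Finset.Icc (-(C : ℤ) ^ 2) ((C : ℤ) ^ 2))).erase 0
  have h𝒱 : ∀ x : D, x ≠ 0 → |x.1| ≤ (C : ℤ) ^ 2 → |x.2| ≤ (C : ℤ) ^ 2 → x ∈ 𝒱 := by
    intro x hx h1 h2
    rw [abs_le] at h1 h2
    simp only [𝒱, Finset.mem_erase, Finset.mem_product, Finset.mem_Icc]
    exact ⟨hx, h1, h2⟩
  have h0𝒱 : (0 : D) ∉ 𝒱 := by simp [𝒱]
  obtain ⟨T, hT, w, hdsp, hcfgw, B, hB0, hB⟩ := hard' 𝒱 h0𝒱
  refine ⟨𝒱, h0𝒱, T, hT, w, hdsp, hcfgw, fun c hkill => ?_⟩
  by_contra hne1
  set R' := w.length with hR
  set N := 4 * 2 ^ R' with hN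
  -- the tails
  set τ : ℕ → List (Fin n) := fun j => X0 (c ^ (w.getD j ((0, 0), 0)).2) with hτ
  set tn : ℕ → ℕ := fun j => (τ j).length with htn
  set tm := (∑ j ∈ Finset.range R', tn j) + 1 with htm
  have hmj : ∀ j, j < R' → tn j ≤ tm := by
    intro j hj
    have : tn j ≤ ∑ j ∈ Finset.range R', tn j :=
      Finset.single_le_sum (f := tn) (fun _ _ => Nat.zero_le _) (Finset.mem_range.mpr hj)
    omega
  set zz : ℕ → Fin 4 ⊕ Fin n := fun q => Sum.inl (if q = 0 then 0 else if q = 1 then 1
    else if q = 2 then 2 else 3) with hzz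
  set tl : ℕ → ℕ → Fin 4 ⊕ Fin n := fun j r => Sum.inr ((τ j).getD r t0) with htl
  set ℓ := lett2 N tm zz tl with hℓ
  set M := R' * (N + tm) with hM
  obtain ⟨Bd, hBd⟩ := hPL M ℓ
  obtain ⟨D0, hD1, hD0⟩ : ∃ D0 : ℕ, 1 ≤ D0 ∧ ∀ x ∈ w, x.1.1.natAbs ≤ D0 ∧ x.1.2.natAbs ≤ D0 ∧
      x.2.natAbs ≤ D0 := by
    refine ⟨(w.map fun x => x.1.1.natAbs + x.1.2.natAbs + x.2.natAbs).sum + 1, by omega, ?_⟩
    intro x hx
    have : x.1.1.natAbs + x.1.2.natAbs + x.2.natAbs ≤
        (w.map fun x => x.1.1.natAbs + x.1.2.natAbs + x.2.natAbs).sum :=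
      List.single_le_sum (by simp) _ (List.mem_map_of_mem hx)
    omega
  set Nn := M * M * ((C + 1) * (C + 1)) with hNn
  set κ := R' * B.toNat * C + D0 + 1 with hκ
  set U := lev Bd Nn C κ with hU
  let e : Vec := Finsupp.onFinset (Finset.range M) (expo2 tm U tn w) (by
    intro i hi
    rw [Finset.mem_range]
    by_contra hc
    exact hi (expo2_zero tm U tn w (not_lt.mp hc)))
  have he : ∀ i, e i = expo2 tm U tn w i := fun i => rfl
  have heM : ∀ i, M ≤ i → e i = 0 := fun i hi => expo2_zero tm U tn w hi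
  -- the word is nontrivial
  have hword : ∀ e' : ℕ → ℕ, (∀ j, j < R' → ∀ r, r < tm →
      e' (j * (N + tm) + N + r) = e (j * (N + tm) + N + r)) →
      ((bword X ℓ M e').map f).prod = ev a b c (unword2 N tm w fun i => (e' i : ℤ)) := by
    intro e' he'
    refine eval_bword2 hab f X N tm zz tl (hX 0) (hX 1) (hX 2) (hX 3) w e' ?_
    intro j hj
    have h1 : ((List.range tm).map fun r => ((X (tl j r)).map f).prod ^ e' (j * (N + tm) + N + r)) =
        (List.range tm).map fun r => f ((τ j).getD r t0) ^ (if r < (τ j).length then 1 else 0) := by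
      apply List.map_congr_left
      intro r hr
      rw [List.mem_range] at hr
      have hNw : N = 4 * 2 ^ w.length := rfl
      have hNj : 4 * 2 ^ (w.length - 1 - j) ≤ 4 * 2 ^ w.length :=
        Nat.mul_le_mul_left 4 (Nat.pow_le_pow_right (by norm_num) (by omega))
      have h2 : N + r - 4 * 2 ^ w.length = r := by rw [← hNw]; omega
      have h4 : e (j * (N + tm) + (N + r)) = if r < tn j then 1 else 0 := by
        have := expo2_val tm U tn w j hj (N + r) (by rw [← hNw]; omega)
        rw [if_neg (by rw [not_lt]; rw [← hNw] at hNj; omega), if_neg (by rw [← hNw]; omega),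
          h2] at this
        exact this
      rw [he' j hj r hr, add_assoc, h4]
      simp [hXdef, tl, tn]
    rw [h1, tail_eval f t0 (τ j) tm (hmj j hj)]
    have h3 : ((τ j).map f).prod = c ^ (w.getD j ((0, 0), 0)).2 := hX0' _
    rw [h3, List.getD_eq_getElem _ _ hj]
  have hin : bword X ℓ M e ∈ g.language := by
    rw [hmem, hword e (fun _ _ _ _ => rfl)]
    intro h1
    have h2 : (unword2 N tm w fun i => ((e i : ℕ) : ℤ)) = w := unword2_expo2 tm U tn w
    rw [h2] at h1
    exact hne1 h1
  obtain ⟨b', P, k, hb', hP, hNC, hek, hk'⟩ := hBd e heM hin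
  have hPcard : P.card ≤ Nn := card_links M C P hP
  -- local changes
  have hlocal : ∀ j, j < R' → ∃ (q : ℕ) (z : Link → ℤ), q + 1 < N ∧
      (∀ p, z p ≠ 0 → p ∈ P ∧ R' * B.toNat * C ≤ k p) ∧ (∀ p, |z p| ≤ C) ∧
      (∀ m, m ≠ j * (N + tm) + q → m ≠ j * (N + tm) + q + 1 →
        ∑ p ∈ P, z p * (Link.vec p m : ℤ) = 0) ∧
      ¬ (∑ p ∈ P, z p * (Link.vec p (j * (N + tm) + q) : ℤ) = 0 ∧
        ∑ p ∈ P, z p * (Link.vec p (j * (N + tm) + q + 1) : ℤ) = 0) ∧
      |∑ p ∈ P, z p * (Link.vec p (j * (N + tm) + q) : ℤ)| ≤ (C : ℤ) ^ 2 ∧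
      |∑ p ∈ P, z p * (Link.vec p (j * (N + tm) + q + 1) : ℤ)| ≤ (C : ℤ) ^ 2 := by
    intro j hj
    have hnN : 4 * 2 ^ (R' - 1 - j) ≤ N := by
      rw [hN]
      exact Nat.mul_le_mul_left _ (Nat.pow_le_pow_right (by norm_num) (by omega))
    have hn2 : 2 ≤ 4 * 2 ^ (R' - 1 - j) := by
      have : 1 ≤ 2 ^ (R' - 1 - j) := Nat.one_le_two_pow
      omega
    obtain ⟨i, hi1, hi2, z, hz1, hz2, hz3, hz4, hz5, hz6⟩ := local_change C
      (R' * B.toNat * C) P k hNC (fun p hp => ⟨(hP p hp).1, (hP p hp).2.2⟩)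
      (j * (N + tm)) (4 * 2 ^ (R' - 1 - j)) hn2
      ((Finset.range (R' * (N + tm))).filter fun i => j < i / (N + tm) ∧
        i % (N + tm) < 4 * 2 ^ (R' - 1 - i / (N + tm)))
      (card_high2 R' (N + tm) j (by omega) hj)
      (by
        intro o ho
        rw [Finset.mem_filter] at ho
        intro hc
        have h1 : o / (N + tm) < j + 1 := by
          rw [Nat.div_lt_iff_lt_mul (by omega)]
          calc o < j * (N + tm) + 4 * 2 ^ (R' - 1 - j) := hc.2
            _ ≤ j * (N + tm) + (N + tm) := by omega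
            _ = (j + 1) * (N + tm) := by ring
        omega)
      (by
        intro i hi1 hi2
        have hdiv : i / (N + tm) = j := by
          apply Nat.div_eq_of_lt_le
          · exact hi1
          · calc i < j * (N + tm) + 4 * 2 ^ (R' - 1 - j) := hi2
              _ ≤ j * (N + tm) + (N + tm) := by omega
              _ = (j + 1) * (N + tm) := by ring
        have hmod : i % (N + tm) < 4 * 2 ^ (R' - 1 - i / (N + tm)) := by
          have := Nat.div_add_mod i (N + tm)
          rw [hdiv] at this ⊢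
          have h3 : (N + tm) * j = j * (N + tm) := by ring
          omega
        have hei : U j ≤ e i := by
          have := (expo2_high tm U tn w D0 hD0 (i := i) (by rw [← hR, ← hN, hdiv]; exact hj) hmod).1
          rw [← hR, ← hN, hdiv] at this
          exact this
        have hbig := exists_big C Bd (thr Bd Nn C κ j) b' P k hb' (fun p hp => (hP p hp).2.2) i
          (by
            rw [← hek]
            have h1 := lev_ge Bd Nn C κ j
            have h2 : P.card * (C * thr Bd Nn C κ j) ≤ Nn * (C * thr Bd Nn C κ j) :=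
              Nat.mul_le_mul_right _ hPcard
            rw [← hU] at h1
            omega)
        obtain ⟨p, hp, hkp, hvp⟩ := hbig
        refine ⟨p, hp, ?_, hvp, ?_⟩
        · have := thr_ge Bd Nn C κ j
          omega
        · intro m hm
          have hem : thr Bd Nn C κ j ≤ e m := by
            rw [hek]
            exact ends_big _ b' P k hp hkp hm
          have hmM : m < M := by
            rcases vec_ends hm with h1 | h1
            · have := hP p hp
              omega
            · have := hP p hp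
              omega
          have hthr := thr_ge Bd Nn C κ j
          by_cases hlow : (m / (N + tm) < R' ∧ m % (N + tm) < 4 * 2 ^ (R' - 1 - m / (N + tm)))
          · have hup := (expo2_high tm U tn w D0 hD0 (i := m) hlow.1 hlow.2).2
            rw [← hR, ← hN] at hup
            rw [he] at hem
            rcases lt_trichotomy (m / (N + tm)) j with h1 | h1 | h1
            · exfalso
              have := lev_lt_thr Bd Nn C κ h1
              rw [← hU] at this
              omega
            · left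
              have hdm := Nat.div_add_mod m (N + tm)
              rw [h1] at hdm hlow
              have h3 : (N + tm) * j = j * (N + tm) := by ring
              omega
            · right
              rw [Finset.mem_filter, Finset.mem_range]
              exact ⟨hmM, h1, hlow.2⟩
          · exfalso
            have := expo2_low tm U tn w (i := m) hlow
            rw [he] at hem
            omega)
    obtain ⟨q, rfl⟩ := Nat.exists_eq_add_of_le hi1
    exact ⟨q, z, by omega, hz1, hz2, hz3, hz4, hz5, hz6⟩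
  choose! q z hq hz1 hz2 hz3 hz4 hz5 hz6 using hlocal
  set Δ : ℕ → ℕ → ℤ := fun j m => ∑ p ∈ P, z j p * (Link.vec p m : ℤ) with hΔ
  have hrow : ∀ j, j < R' → ((xs2 N tm (Δ j) j, ys2 N tm (Δ j) j) : D) ≠ 0 ∧
      |xs2 N tm (Δ j) j| ≤ (C : ℤ) ^ 2 ∧ |ys2 N tm (Δ j) j| ≤ (C : ℤ) ^ 2 ∧
      ∀ j', j' ≠ j → xs2 N tm (Δ j) j' = 0 ∧ ys2 N tm (Δ j) j' = 0 := by
    intro j hj
    exact row_colour2 N tm j (q j) (hq j hj) (Δ j) _ (hz3 j hj) (hz4 j hj) (hz5 j hj) (hz6 j hj)
  let χ : ℕ → D := fun j => (xs2 N tm (Δ j) j, ys2 N tm (Δ j) j)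
  let cw : List (D × ℤ × D) := w.mapIdx fun j x => (x.1, x.2, χ j)
  have hcw : uncol cw = w := by
    unfold uncol
    apply List.ext_getElem
    · simp [cw]
    · intro j h1 h2
      simp [cw]
  have hcol : ∀ x ∈ cw, x.2.2 ∈ 𝒱 := by
    intro x hx
    rw [List.mem_mapIdx] at hx
    obtain ⟨j, hj, rfl⟩ := hx
    obtain ⟨h1, h2, h3, -⟩ := hrow j hj
    exact h𝒱 _ h1 h2 h3
  obtain ⟨t, ht, hcfg, hdsp'⟩ := (hB cw hcw hcol).explicit hB0
  have hmod : (cw.mapIdx fun j x => (x.1 + t j • x.2.2, x.2.1)) =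
      w.mapIdx fun j x => (x.1 + t j • χ j, x.2) := by
    simp [cw, List.mapIdx_mapIdx, Function.comp_def]
  rw [hmod] at hcfg hdsp'
  rw [hcw, hdsp, add_zero] at hdsp'
  -- the new multiplicities
  set k' : Link → ℕ := fun p => ((k p : ℤ) + ∑ j ∈ Finset.range R', t j * z j p).toNat with hk'def
  have hk'eq : ∀ p, (k' p : ℤ) = (k p : ℤ) + ∑ j ∈ Finset.range R', t j * z j p := by
    intro p
    rw [hk'def]
    apply Int.toNat_of_nonneg
    by_cases hp : ∀ j ∈ Finset.range R', z j p = 0
    · rw [Finset.sum_eq_zero fun j hj => by rw [hp j hj, mul_zero]]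
      positivity
    · push Not at hp
      obtain ⟨j₀, hj₀, hne⟩ := hp
      have h1 := (hz1 j₀ (Finset.mem_range.mp hj₀) p hne).2
      have h2 : |∑ j ∈ Finset.range R', t j * z j p| ≤ R' * (B * C) := by
        calc |∑ j ∈ Finset.range R', t j * z j p|
            ≤ ∑ j ∈ Finset.range R', |t j * z j p| := Finset.abs_sum_le_sum_abs _ _
          _ ≤ ∑ _j ∈ Finset.range R', B * C := by
              apply Finset.sum_le_sum
              intro j hj
              rw [abs_mul]
              exact mul_le_mul (ht j) (hz2 j (Finset.mem_range.mp hj) p) (abs_nonneg _) hB0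
          _ = R' * (B * C) := by simp
      have h3 : ((R' * B.toNat * C : ℕ) : ℤ) ≤ k p := by exact_mod_cast h1
      have h4 : ((R' * B.toNat * C : ℕ) : ℤ) = R' * (B * C) := by
        push_cast
        rw [Int.toNat_of_nonneg hB0]
        ring
      rw [abs_le] at h2
      linarith [h2.1]
  have hlin : ∀ i, ((lin b' P k' i : ℕ) : ℤ) =
      ((e i : ℕ) : ℤ) + ∑ j ∈ Finset.range R', t j * Δ j i := by
    intro i
    rw [hek]
    simp only [lin, Finsupp.add_apply, Finsupp.finsetSum_apply, Finsupp.smul_apply, smul_eq_mul]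
    push_cast
    simp only [hΔ, hk'eq, add_mul, Finset.sum_add_distrib, Finset.mul_sum]
    rw [add_assoc, add_right_inj, add_right_inj]
    rw [Finset.sum_comm]
    apply Finset.sum_congr rfl
    intro p _
    rw [Finset.sum_mul]
    apply Finset.sum_congr rfl
    intro j _
    ring
  have hnew : (unword2 N tm w fun i => ((lin b' P k' i : ℕ) : ℤ)) =
      w.mapIdx fun j x => (x.1 + t j • χ j, x.2) := by
    have h2 : (unword2 N tm w fun i => ((e i : ℕ) : ℤ)) = w := unword2_expo2 tm U tn w
    apply List.ext_getElem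
    · simp [unword2]
    · intro j h3 h4
      have hj : j < R' := by simpa [unword2] using h3
      have h5 : (w[j]'(by omega)).1 =
          (xs2 N tm (fun i => ((e i : ℕ) : ℤ)) j, ys2 N tm (fun i => ((e i : ℕ) : ℤ)) j) := by
        have := List.getElem_of_eq h2.symm (i := j) (by omega)
        rw [this]
        simp [unword2]
      simp only [unword2, List.getElem_mapIdx, h5]
      have hfun : (fun i => ((lin b' P k' i : ℕ) : ℤ)) =
          fun i => ((e i : ℕ) : ℤ) + (fun i => ∑ j ∈ Finset.range R', t j * Δ j i) i :=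
        funext hlin
      have hx : ∑ r ∈ Finset.range R', t r * xs2 N tm (Δ r) j = t j * xs2 N tm (Δ j) j := by
        apply Finset.sum_eq_single_of_mem j (Finset.mem_range.mpr hj)
        intro r hr hrj
        rw [((hrow r (Finset.mem_range.mp hr)).2.2.2 j (Ne.symm hrj)).1, mul_zero]
      have hy : ∑ r ∈ Finset.range R', t r * ys2 N tm (Δ r) j = t j * ys2 N tm (Δ j) j := by
        apply Finset.sum_eq_single_of_mem j (Finset.mem_range.mpr hj)
        intro r hr hrj
        rw [((hrow r (Finset.mem_range.mp hr)).2.2.2 j (Ne.symm hrj)).2, mul_zero]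
      have hX1 : xs2 N tm (fun i => ((lin b' P k' i : ℕ) : ℤ)) j =
          xs2 N tm (fun i => ((e i : ℕ) : ℤ)) j + t j * xs2 N tm (Δ j) j := by
        rw [hfun, xs2_add, xs2_sum, hx]
      have hY1 : ys2 N tm (fun i => ((lin b' P k' i : ℕ) : ℤ)) j =
          ys2 N tm (fun i => ((e i : ℕ) : ℤ)) j + t j * ys2 N tm (Δ j) j := by
        rw [hfun, ys2_add, ys2_sum, hy]
      rw [hX1, hY1]
      simp [χ]
  have htail : ∀ j, j < R' → ∀ r, r < tm →
      lin b' P k' (j * (N + tm) + N + r) = e (j * (N + tm) + N + r) := by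
    intro j hj r hr
    have h1 := hlin (j * (N + tm) + N + r)
    have h2 : ∑ j' ∈ Finset.range R', t j' * Δ j' (j * (N + tm) + N + r) = 0 := by
      apply Finset.sum_eq_zero
      intro j' hj'
      have hj2 := hq j' (Finset.mem_range.mp hj')
      have h3 : Δ j' (j * (N + tm) + N + r) = 0 := by
        apply hz3 j' (Finset.mem_range.mp hj')
        · intro h
          have := (row_unique (L := N + tm) (j' := j) (k := N + r) (j := j') (l := q j') (by omega)
            (by omega) (by omega)).2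
          omega
        · intro h
          have := (row_unique (L := N + tm) (j' := j) (k := N + r) (j := j') (l := q j' + 1)
            (by omega) (by omega) (by omega)).2
          omega
      rw [h3, mul_zero]
    rw [h2, add_zero] at h1
    exact_mod_cast h1
  have hfin := hk' k'
  rw [hmem, hword _ htail, hnew] at hfin
  exact hfin (hkill _ hcfg hdsp')

end Pool.Helper49.WR
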